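import Mathlib
import Pool.Agent.TH507.Host

/-!
# A host graph of large treewidth with few disjoint models of the triangle (helper57)
-/

namespace Pool.Agent.X57.HostTri

open Finset Pool.Agent.TH507.RG Pool.Agent.TH507.Host

variable {V : Type} [Fintype V] [DecidableEq V] {M : ℕ}

/-- small sets together with as many entries of the list inside them -/
def Pt (g : ℕ) (φ : Fin M → V × V) : Finset (Σ _ : ℕ, Finset V × Finset (Fin M)) :=
  (Icc 1 g).sigma (fun n => (powersetCard n univ ×ˢ powersetCard n univ).filter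
    (fun p => ∀ i ∈ p.2, φ i ∈ p.1 ×ˢ p.1))

lemma mem_badIn {S : Finset V} {I : Finset (Fin M)} {φ : Fin M → V × V} :
    φ ∈ badIn S I ↔ ∀ i ∈ I, φ i ∈ S ×ˢ S := by
  unfold badIn
  rw [Fintype.mem_piFinset]
  constructor
  · intro h i hi
    have := h i
    rwa [if_pos hi] at this
  · intro h i
    by_cases hi : i ∈ I
    · rw [if_pos hi]; exact h i hi
    · rw [if_neg hi]; exact mem_univ _

lemma sum_Pt (g : ℕ) : ∑ φ : Fin M → V × V, (Pt g φ).card =
    ∑ n ∈ Icc 1 g, (Fintype.card V).choose n * (M.choose n *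
      ((n ^ 2) ^ n * (Fintype.card V ^ 2) ^ (M - n))) := by
  unfold Pt
  simp only [card_sigma]
  rw [sum_comm]
  apply sum_congr rfl
  intro n _
  simp only [card_filter]
  rw [sum_comm]
  have h1 : ∀ p ∈ powersetCard n (univ : Finset V) ×ˢ powersetCard n (univ : Finset (Fin M)),
      ∑ φ : Fin M → V × V, (if ∀ i ∈ p.2, φ i ∈ p.1 ×ˢ p.1 then 1 else 0) =
        (n ^ 2) ^ n * (Fintype.card V ^ 2) ^ (M - n) := by
    intro p hp
    rw [mem_product, mem_powersetCard, mem_powersetCard] at hp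
    rw [← card_filter]
    have h2 : (univ.filter (fun φ : Fin M → V × V => ∀ i ∈ p.2, φ i ∈ p.1 ×ˢ p.1)) =
        badIn p.1 p.2 := by
      ext φ
      rw [mem_filter, mem_badIn]
      simp
    rw [h2, card_badIn, hp.1.2, hp.2.2]
  rw [sum_congr rfl h1, sum_const, card_product, card_powersetCard, card_powersetCard, card_univ,
    card_univ, Fintype.card_fin, smul_eq_mul, Nat.mul_assoc]

/-- the total number of small sets with many entries of the list inside them -/
lemma sum_Pt_le (g N : ℕ) (hN : Fintype.card V = N) (hM : M = 16 * N) :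
    ∑ φ : Fin M → V × V, (Pt g φ).card ≤ (g * (16 * g ^ 2) ^ g) * (N ^ 2) ^ M := by
  rw [sum_Pt, hN]
  have h1 : ∀ n ∈ Icc 1 g, N.choose n * (M.choose n * ((n ^ 2) ^ n * (N ^ 2) ^ (M - n))) ≤
      (16 * g ^ 2) ^ g * (N ^ 2) ^ M := by
    intro n hn
    rw [mem_Icc] at hn
    by_cases hnM : n ≤ M
    · have e1 : N.choose n ≤ N ^ n := Nat.choose_le_pow _ _
      have e2 : M.choose n ≤ (16 * N) ^ n := by
        rw [← hM]; exact Nat.choose_le_pow _ _
      have e3 : (N ^ 2) ^ M = (N ^ 2) ^ n * (N ^ 2) ^ (M - n) := by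
        rw [← pow_add]; congr 1; omega
      have hg : 1 ≤ g := by omega
      calc N.choose n * (M.choose n * ((n ^ 2) ^ n * (N ^ 2) ^ (M - n)))
          ≤ N ^ n * ((16 * N) ^ n * ((n ^ 2) ^ n * (N ^ 2) ^ (M - n))) := by gcongr
        _ = (16 * n ^ 2) ^ n * ((N ^ 2) ^ n * (N ^ 2) ^ (M - n)) := by
            rw [mul_pow, mul_pow]; ring
        _ = (16 * n ^ 2) ^ n * (N ^ 2) ^ M := by rw [e3]
        _ ≤ (16 * g ^ 2) ^ g * (N ^ 2) ^ M := by
            apply Nat.mul_le_mul_right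
            calc (16 * n ^ 2) ^ n ≤ (16 * g ^ 2) ^ n := by gcongr; omega
              _ ≤ (16 * g ^ 2) ^ g := Nat.pow_le_pow_right (by positivity) hn.2
    · rw [Nat.choose_eq_zero_of_lt (not_le.1 hnM)]
      simp
  calc _ ≤ ∑ _n ∈ Icc 1 g, (16 * g ^ 2) ^ g * (N ^ 2) ^ M := sum_le_sum h1
    _ = _ := by
        rw [sum_const, Nat.card_Icc, Nat.add_sub_cancel, smul_eq_mul, Nat.mul_assoc]

lemma card_bad1_le (N : ℕ) (hN : Fintype.card V = N) (hN1 : 1 ≤ N) (hM : M = 16 * N) :
    2 * (bad1 V M).card ≤ (N ^ 2) ^ M := by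
  have h := card_bad1 (V := V) (M := M)
  rw [hN] at h
  have e1 : 2 * 4 ^ N * 7 ^ M ≤ 8 ^ M := by
    rw [hM, pow_mul 7, pow_mul 8]
    calc 2 * 4 ^ N * (7 ^ 16) ^ N ≤ 2 ^ N * 4 ^ N * (7 ^ 16) ^ N := by
          apply Nat.mul_le_mul_right
          apply Nat.mul_le_mul_right
          calc 2 = 2 ^ 1 := rfl
            _ ≤ 2 ^ N := Nat.pow_le_pow_right (by norm_num) hN1
      _ = (2 * 4 * 7 ^ 16) ^ N := by rw [mul_pow, mul_pow]
      _ ≤ (8 ^ 16) ^ N := Nat.pow_le_pow_left (by norm_num) _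
  have e2 : 8 ^ M * (2 * (bad1 V M).card) ≤ 8 ^ M * ((N ^ 2) ^ M) := by
    calc 8 ^ M * (2 * (bad1 V M).card) = 2 * (8 ^ M * (bad1 V M).card) := by ring
      _ ≤ 2 * (4 ^ N * (7 ^ M * (N ^ 2) ^ M)) := Nat.mul_le_mul_left _ h
      _ = (2 * 4 ^ N * 7 ^ M) * (N ^ 2) ^ M := by ring
      _ ≤ 8 ^ M * (N ^ 2) ^ M := Nat.mul_le_mul_right _ e1
  exact Nat.le_of_mul_le_mul_left e2 (by positivity)

/-- the list exists -/
theorem exists_list' (g N : ℕ) (hN1 : 1 ≤ N) :
    ∃ φ : Fin (16 * N) → Fin N × Fin N,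
      (∀ A B : Finset (Fin N), Disjoint A B → N ≤ 4 * A.card → N ≤ 4 * B.card →
        ∃ u ∈ A, ∃ v ∈ B, (gr φ).Adj u v) ∧
      (Pt g φ).card ≤ 2 * (g * (16 * g ^ 2) ^ g) := by
  classical
  set M := 16 * N with hM
  set K := g * (16 * g ^ 2) ^ g with hK
  have hcard : Fintype.card (Fin N) = N := Fintype.card_fin _
  have h1 := card_bad1_le (V := Fin N) N hcard hN1 hM
  have h2 := sum_Pt_le (V := Fin N) g N hcard hM
  rw [← hK] at h2
  have hT : Fintype.card (Fin M → Fin N × Fin N) = (N ^ 2) ^ M := by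
    rw [Fintype.card_fun, Fintype.card_prod, Fintype.card_fin, Fintype.card_fin, pow_two]
  obtain ⟨φ, hφ1, hφ2⟩ : ∃ φ : Fin M → Fin N × Fin N, φ ∉ bad1 (Fin N) M ∧
      (Pt g φ).card ≤ 2 * K := by
    by_contra hcon
    push Not at hcon
    have h3 : ((bad1 (Fin N) M)ᶜ).card * (2 * K + 1) ≤ ∑ φ : Fin M → Fin N × Fin N,
        (Pt g φ).card := by
      calc ((bad1 (Fin N) M)ᶜ).card * (2 * K + 1) = ∑ _φ ∈ (bad1 (Fin N) M)ᶜ, (2 * K + 1) := by
            rw [sum_const, smul_eq_mul]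
        _ ≤ ∑ φ ∈ (bad1 (Fin N) M)ᶜ, (Pt g φ).card := sum_le_sum (fun φ hφ =>
            hcon φ (mem_compl.1 hφ))
        _ ≤ _ := sum_le_sum_of_subset (subset_univ _)
    rw [card_compl, hT] at h3
    set T := (N ^ 2) ^ M with hTdef
    have hTpos : 1 ≤ T := Nat.one_le_iff_ne_zero.2 (by positivity)
    set b := (bad1 (Fin N) M).card
    have h4 : T ≤ 2 * (T - b) := by omega
    have h5 : T * (2 * K + 1) ≤ 2 * (K * T) := by
      calc T * (2 * K + 1) ≤ 2 * (T - b) * (2 * K + 1) := Nat.mul_le_mul_right _ h4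
        _ = 2 * ((T - b) * (2 * K + 1)) := by ring
        _ ≤ 2 * (K * T) := Nat.mul_le_mul_left _ (h3.trans h2)
    nlinarith
  refine ⟨φ, ?_, hφ2⟩
  intro A B hd hA hB
  by_contra hcon
  push Not at hcon
  apply hφ1
  rw [bad1, mem_biUnion]
  refine ⟨(A, B), ?_, ?_⟩
  · rw [mem_filter]
    refine ⟨mem_univ _, hd, ?_, ?_⟩
    · rw [hcard]; exact hA
    · rw [hcard]; exact hB
  · rw [badPair, Fintype.mem_piFinset]
    intro i
    rw [mem_compl, mem_union, mem_product, mem_product]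
    rintro (⟨h3, h4⟩ | ⟨h3, h4⟩)
    · refine hcon _ h3 _ h4 ⟨?_, i, Or.inl rfl⟩
      intro h
      exact Finset.disjoint_left.1 hd h3 (h ▸ h4)
    · refine hcon _ h4 _ h3 ⟨?_, i, Or.inr rfl⟩
      intro h
      exact Finset.disjoint_left.1 hd h4 (h ▸ h3)

/-- The disjoint union of `k` triangles. -/
def tri (k : ℕ) : SimpleGraph (Fin k × Fin 3) where
  Adj x y := x.1 = y.1 ∧ x.2 ≠ y.2
  symm := ⟨fun _ _ h => ⟨h.1.symm, h.2.symm⟩⟩
  loopless := ⟨fun _ h => h.2 rfl⟩

/-- few disjoint models of the triangle -/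
lemma not_tri {g N k : ℕ} (φ : Fin (16 * N) → Fin N × Fin N)
    (hk : (Pt g φ).card + N / (g + 1) < k) : ¬ IsMinor (tri k) (gr φ) := by
  classical
  rintro ⟨B, h1, h2, h3⟩
  -- the regions
  set U : Fin k → Finset (Fin N) := fun i => univ.biUnion (fun a : Fin 3 => (B (i, a)).toFinset)
    with hU
  have hmem : ∀ i x, x ∈ U i ↔ ∃ a, x ∈ B (i, a) := by
    intro i x
    simp [hU]
  have hd : ∀ i j, i ≠ j → Disjoint (U i) (U j) := by
    intro i j hij
    rw [Finset.disjoint_left]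
    intro x hx hy
    rw [hmem] at hx hy
    obtain ⟨a, ha⟩ := hx
    obtain ⟨b, hb⟩ := hy
    exact Set.disjoint_left.1 (h2 (i, a) (j, b) (fun h => hij (congrArg Prod.fst h))) ha hb
  have hne : ∀ i, (U i).Nonempty := by
    intro i
    obtain ⟨⟨x, hx⟩⟩ := (h1 (i, 0)).nonempty
    exact ⟨x, (hmem i x).2 ⟨0, hx⟩⟩
  -- the entries inside
  have hin : ∀ i, (U i).card ≤ (univ.filter (fun e => φ e ∈ U i ×ˢ U i)).card := by
    intro i
    have hp3 : ∀ p : Fin 3, p ≠ p + 1 := by decide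
    obtain ⟨E, hE1, hE2⟩ := count_model (G := gr φ) (fun a : Fin 3 => (B (i, a)).toFinset)
      (fun a => by
        have : ((B (i, a)).toFinset : Set (Fin N)) = B (i, a) := Set.coe_toFinset _
        rw [this]
        exact h1 (i, a))
      (fun a b hab => by
        rw [Set.disjoint_toFinset]
        exact h2 _ _ (fun h => hab (congrArg Prod.snd h)))
      (fun p : Fin 3 => p) (fun p : Fin 3 => p + 1) (by decide) (by decide)
      (fun p => by
        obtain ⟨u, hu, v, hv, huv⟩ := h3 (i, p) (i, p + 1) ⟨rfl, hp3 p⟩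
        exact ⟨u, Set.mem_toFinset.2 hu, v, Set.mem_toFinset.2 hv, huv⟩)
    have h5 := card_edges_le φ (U i) E hE1
    rw [Fintype.card_fin] at hE2
    have h6 : (U i).card + 3 ≤ E.card + 3 := hE2
    omega
  -- the small regions
  have hsmall : (univ.filter (fun i => (U i).card ≤ g)).card ≤ (Pt g φ).card := by
    have hch : ∀ i, ∃ I : Finset (Fin (16 * N)), I ⊆ univ.filter (fun e => φ e ∈ U i ×ˢ U i) ∧
        I.card = (U i).card := fun i => exists_subset_card_eq (hin i)
    choose I hI1 hI2 using hch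
    apply card_le_card_of_injOn (fun i => (⟨(U i).card, (U i, I i)⟩ :
      Σ _ : ℕ, Finset (Fin N) × Finset (Fin (16 * N))))
    · intro i hi
      rw [mem_coe, mem_filter] at hi
      rw [mem_coe, Pt, mem_sigma, mem_Icc, mem_filter, mem_product, mem_powersetCard,
        mem_powersetCard]
      refine ⟨⟨card_pos.2 (hne i), hi.2⟩, ⟨⟨subset_univ _, rfl⟩, ⟨subset_univ _, hI2 i⟩⟩, ?_⟩
      intro e he
      exact (mem_filter.1 (hI1 i he)).2
    · intro i _ j _ hij
      by_contra hne'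
      simp only [Sigma.mk.injEq] at hij
      have h4 := congrArg Prod.fst (eq_of_heq hij.2)
      simp only at h4
      obtain ⟨x, hx⟩ := hne i
      exact Finset.disjoint_left.1 (hd i j hne') hx (h4 ▸ hx)
  -- the large regions
  have hlarge : (univ.filter (fun i => ¬ (U i).card ≤ g)).card * (g + 1) ≤ N := by
    calc (univ.filter (fun i => ¬ (U i).card ≤ g)).card * (g + 1)
        = ∑ _i ∈ univ.filter (fun i => ¬ (U i).card ≤ g), (g + 1) := by
          rw [sum_const, smul_eq_mul]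
      _ ≤ ∑ i ∈ univ.filter (fun i => ¬ (U i).card ≤ g), (U i).card :=
          sum_le_sum (fun i hi => by
            rw [mem_filter] at hi
            omega)
      _ = ((univ.filter (fun i => ¬ (U i).card ≤ g)).biUnion U).card :=
          (card_biUnion (fun i _ j _ hij => hd i j hij)).symm
      _ ≤ (univ : Finset (Fin N)).card := card_le_card (subset_univ _)
      _ = N := by rw [card_univ, Fintype.card_fin]
  have hsum : (univ.filter (fun i => (U i).card ≤ g)).card +
      (univ.filter (fun i => ¬ (U i).card ≤ g)).card = k := by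
    rw [card_filter_add_card_filter_not, card_univ, Fintype.card_fin]
  have := (Nat.le_div_iff_mul_le (show 0 < g + 1 by omega)).2 hlarge
  omega

/-- The host graph: for every `C` there are arbitrarily large `k` and graphs without `k` disjoint
triangles as a minor, of treewidth at least `3 k + C`. -/
theorem host (C k0 : ℕ) : ∃ (k N : ℕ) (G : SimpleGraph (Fin N)), k0 ≤ k ∧
    ¬ IsMinor (tri k) G ∧ ∀ w, TwLE G w → 3 * k + C ≤ w := by
  classical
  set K := 2 * (23 * (16 * 23 ^ 2) ^ 23) with hK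
  set m := 6 * K + 6 * k0 + 2 * C + 6 with hm
  obtain ⟨φ, h1, h2⟩ := exists_list' 23 (4 * m) (by omega)
  have hdiv : 4 * m / (23 + 1) = K + k0 + (2 * C + 6) / 6 := by omega
  refine ⟨K + 4 * m / (23 + 1) + 1, 4 * m, gr φ, by omega, not_tri (g := 23) φ (by omega), ?_⟩
  intro w hw
  by_contra hlt
  push Not at hlt
  refine not_twLE (G := gr φ) (w := w) ?_ ?_ hw
  · intro A B hd hA hB
    rw [Fintype.card_fin] at hA hB
    exact h1 A B hd hA hB
  · rw [Fintype.card_fin]
    omega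

end Pool.Agent.X57.HostTri
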