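import Mathlib
import Pool.Agent.H279R3.TreeHelly

/-!
# Tree decompositions (helper57): common tools
-/

namespace Pool.Agent.X57

open SimpleGraph

/-- A connected set of vertices (in the sense of the induced subgraph) is walk-connected. -/
lemma wconn_of_induce {α : Type} (T : SimpleGraph α) (S : Set α)
    (h : (T.induce S).Preconnected) : H279R3.WConn T S := by
  have key : ∀ (a b : S), (T.induce S).Walk a b → ∃ p : T.Walk a.1 b.1, ∀ x ∈ p.support, x ∈ S := by
    intro a b q
    induction q with
    | nil =>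
      rename_i u
      refine ⟨Walk.nil, fun x hx => ?_⟩
      simp only [Walk.support_nil, List.mem_singleton] at hx
      rw [hx]
      exact u.2
    | @cons u v w huv q ih =>
      obtain ⟨p, hp⟩ := ih
      refine ⟨Walk.cons huv p, fun x hx => ?_⟩
      rw [Walk.support_cons, List.mem_cons] at hx
      rcases hx with rfl | hx
      · exact u.2
      · exact hp x hx
  intro i hi j hj
  obtain ⟨q⟩ := h ⟨i, hi⟩ ⟨j, hj⟩
  exact key _ _ q

/-- For finitely many subtrees of a tree, some subtree `F a` has a node which lies in all the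
subtrees that meet `F a`. -/
lemma exists_simplicial {α : Type} {T : SimpleGraph α} (hT : T.IsTree) {κ : Type} [Finite κ]
    [Nonempty κ] (F : κ → Set α) (hc : ∀ a, H279R3.WConn T (F a)) (hne : ∀ a, (F a).Nonempty) :
    ∃ a, ∃ x ∈ F a, ∀ b, (F a ∩ F b).Nonempty → x ∈ F b := by
  classical
  obtain ⟨ρ⟩ := hT.connected.nonempty
  have htop : ∀ a, ∃ t ∈ F a, ∀ x ∈ F a, T.dist t ρ ≤ T.dist x ρ := by
    intro a
    obtain ⟨y, hy⟩ := hne a
    have hex : ∃ n, ∃ x ∈ F a, T.dist x ρ = n := ⟨_, y, hy, rfl⟩
    obtain ⟨t, ht, htn⟩ := Nat.find_spec hex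
    refine ⟨t, ht, fun x hx => ?_⟩
    rw [htn]
    exact Nat.find_min' hex ⟨x, hx, rfl⟩
  choose t ht hmin using htop
  obtain ⟨a, ha⟩ := Finite.exists_max (fun a => T.dist (t a) ρ)
  refine ⟨a, t a, ht a, fun b hab => ?_⟩
  obtain ⟨x, hxa, hxb⟩ := hab
  have hba : H279R3.Below T ρ (t a) x := H279R3.top_below hT (hc a) (ht a) (hmin a) hxa
  by_cases h : H279R3.Below T ρ (t a) (t b)
  · by_cases he : t b = t a
    · rw [← he]; exact ht b
    · have := H279R3.below_dist hT h he
      have := ha b
      omega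
  · obtain ⟨q, hq⟩ := hc b x hxb (t b) (ht b)
    exact hq _ (H279R3.below_cross hba h q)

end Pool.Agent.X57
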