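import Mathlib
import Pool.Agent.H279R3.TreeHelly
import Pool.Agent.X57.Acyclic
import Pool.Agent.X57.TD

/-!
# Rooted tree decompositions given by parent functions (helper57)
-/

namespace Pool.Agent.X57

open Finset SimpleGraph

variable {V : Type} [DecidableEq V]

/-- node `i` is the top node of `v` -/
def Top (par : ℕ → ℕ) (B : ℕ → Finset V) (v : V) (i : ℕ) : Prop :=
  v ∈ B i ∧ (i = 0 ∨ v ∉ B (par i))

/-- rooted tree decomposition of `G[S]` with `m` nodes, given by a parent function -/
structure PTD (G : SimpleGraph V) (S : Finset V) (m : ℕ) (par : ℕ → ℕ)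
    (B : ℕ → Finset V) : Prop where
  pos : 0 < m
  lt : ∀ i, 0 < i → i < m → par i < i
  sub : ∀ i, i < m → B i ⊆ S
  cov : ∀ v ∈ S, ∃ i, i < m ∧ v ∈ B i
  edge : ∀ u ∈ S, ∀ v ∈ S, G.Adj u v → ∃ i, i < m ∧ u ∈ B i ∧ v ∈ B i
  top : ∀ v i j, i < m → j < m → Top par B v i → Top par B v j → i = j

variable {G : SimpleGraph V} {S : Finset V} {m : ℕ} {par : ℕ → ℕ} {B : ℕ → Finset V}

omit [DecidableEq V] in
lemma PTD.exists_top (h : PTD G S m par B) (v : V) : ∀ i, i < m → v ∈ B i →
    ∃ j, j ≤ i ∧ Top par B v j := by
  intro i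
  induction i using Nat.strong_induction_on with
  | _ i ih =>
    intro hi hv
    rcases Nat.eq_zero_or_pos i with h0 | h0
    · exact ⟨i, le_rfl, hv, Or.inl h0⟩
    · by_cases hp : v ∈ B (par i)
      · have := h.lt i h0 hi
        obtain ⟨j, hj, ht⟩ := ih (par i) this (this.trans hi) hp
        exact ⟨j, by omega, ht⟩
      · exact ⟨i, le_rfl, hv, Or.inr hp⟩

omit [DecidableEq V] in
lemma PTD.up (h : PTD G S m par B) {u v : V} {i i' : ℕ} (hi : i < m) (hi' : i' < m)
    (hv : Top par B v i) (hu : Top par B u i') (hle : i' ≤ i) :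
    ∀ j, j < m → u ∈ B j → v ∈ B j → u ∈ B i := by
  intro j
  induction j using Nat.strong_induction_on with
  | _ j ih =>
    intro hj huj hvj
    by_cases hji : j = i
    · rw [← hji]; exact huj
    · -- `j` is not the top of `v`
      have hnv : ¬ Top par B v j := fun ht => hji (h.top v j i hj hi ht hv)
      have hj0 : j ≠ 0 := fun h0 => hnv ⟨hvj, Or.inl h0⟩
      have hpv : v ∈ B (par j) := by
        by_contra hc
        exact hnv ⟨hvj, Or.inr hc⟩
      -- `j > i`
      obtain ⟨i2, hi2, ht2⟩ := h.exists_top v j hj hvj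
      have : i2 = i := h.top v i2 i (by omega) hi ht2 hv
      have hji2 : i < j := by omega
      have hnu : ¬ Top par B u j := fun ht => by
        have := h.top u j i' hj hi' ht hu
        omega
      have hpu : u ∈ B (par j) := by
        by_contra hc
        exact hnu ⟨huj, Or.inr hc⟩
      have hlt := h.lt j (by omega) hj
      exact ih (par j) hlt (hlt.trans hj) hpu hpv

omit [DecidableEq V] in
/-- every clique is contained in a bag -/
lemma PTD.clique (h : PTD G S m par B) (K : Finset V) (hK : K ⊆ S)
    (hc : ∀ u ∈ K, ∀ v ∈ K, u ≠ v → G.Adj u v) : ∃ i, i < m ∧ K ⊆ B i := by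
  rcases K.eq_empty_or_nonempty with h0 | hne
  · exact ⟨0, h.pos, by rw [h0]; exact empty_subset _⟩
  · have htop : ∀ v, ∃ i, v ∈ K → i < m ∧ Top par B v i := by
      intro v
      by_cases hv : v ∈ K
      · obtain ⟨i, hi, hvi⟩ := h.cov v (hK hv)
        obtain ⟨j, hj, ht⟩ := h.exists_top v i hi hvi
        exact ⟨j, fun _ => ⟨by omega, ht⟩⟩
      · exact ⟨0, fun h => absurd h hv⟩
    choose t ht using htop
    obtain ⟨v, hv, hmax⟩ := exists_max_image K t hne
    refine ⟨t v, (ht v hv).1, fun u hu => ?_⟩
    by_cases huv : u = v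
    · rw [huv]; exact (ht v hv).2.1
    · obtain ⟨j, hj, huj, hvj⟩ := h.edge u (hK hu) v (hK hv) (hc u hu v hv huv)
      exact h.up (ht v hv).1 (ht u hu).1 (ht v hv).2 (ht u hu).2 (hmax u hu) j hj huj hvj

omit [DecidableEq V] in
lemma PTD.single (G : SimpleGraph V) (S : Finset V) : PTD G S 1 (fun _ => 0) (fun _ => S) where
  pos := one_pos
  lt := by intro i h1 h2; omega
  sub := fun _ _ => Subset.rfl
  cov := fun v hv => ⟨0, one_pos, hv⟩
  edge := fun u hu v hv _ => ⟨0, one_pos, hu, hv⟩
  top := by intro v i j hi hj _ _; omega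

/-- adding a leaf: `U` is a set of new vertices whose neighbours are in `U ∪ K`, `K` contained in the
bag `x` -/
lemma PTD.addLeaf (h : PTD G S m par B) (U K : Finset V) (hU : Disjoint U S) (hK : K ⊆ S)
    (x : ℕ) (hx : x < m) (hKx : K ⊆ B x)
    (hcl : ∀ u ∈ U, ∀ v ∈ S, G.Adj u v → v ∈ K) :
    PTD G (S ∪ U) (m + 1) (fun i => if i = m then x else par i)
      (fun i => if i = m then U ∪ K else B i) where
  pos := Nat.succ_pos m
  lt := by
    intro i h1 h2
    split_ifs with him
    · omega
    · exact h.lt i h1 (by omega)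
  sub := by
    intro i hi
    split_ifs with him
    · exact union_subset subset_union_right (hK.trans subset_union_left)
    · exact (h.sub i (by omega)).trans subset_union_left
  cov := by
    intro v hv
    rcases mem_union.1 hv with hv | hv
    · obtain ⟨i, hi, hvi⟩ := h.cov v hv
      refine ⟨i, by omega, ?_⟩
      rw [if_neg (by omega)]
      exact hvi
    · refine ⟨m, by omega, ?_⟩
      simp [hv]
  edge := by
    intro u hu v hv huv
    rcases mem_union.1 hu with hu | hu
    · rcases mem_union.1 hv with hv | hv
      · obtain ⟨i, hi, hui, hvi⟩ := h.edge u hu v hv huv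
        refine ⟨i, by omega, ?_⟩
        rw [if_neg (by omega)]
        exact ⟨hui, hvi⟩
      · refine ⟨m, by omega, ?_⟩
        simp only [if_true]
        exact ⟨mem_union_right _ (hcl v hv u hu huv.symm), mem_union_left _ hv⟩
    · refine ⟨m, by omega, ?_⟩
      simp only [if_true]
      rcases mem_union.1 hv with hv | hv
      · exact ⟨mem_union_left _ hu, mem_union_right _ (hcl u hu v hv huv)⟩
      · exact ⟨mem_union_left _ hu, mem_union_left _ hv⟩
  top := by
    intro v i j hi hj hti htj
    -- a top node different from `m` is an old top node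
    have old : ∀ i, i < m + 1 → i ≠ m → Top (fun i => if i = m then x else par i)
        (fun i => if i = m then U ∪ K else B i) v i → i < m ∧ Top par B v i := by
      intro i hi him ht
      refine ⟨by omega, ?_⟩
      have h1 : v ∈ B i := by
        have := ht.1
        simp only [him, if_false] at this
        exact this
      refine ⟨h1, ?_⟩
      rcases ht.2 with h0 | h0
      · exact Or.inl h0
      · rcases Nat.eq_zero_or_pos i with h00 | h00
        · exact Or.inl h00
        · right
          simp only [him, if_false] at h0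
          rwa [if_neg (by have := h.lt i h00 (by omega); omega)] at h0
    -- `m` is a top node only for vertices of `U`
    have new : Top (fun i => if i = m then x else par i)
        (fun i => if i = m then U ∪ K else B i) v m → v ∈ U := by
      intro ht
      have h1 := ht.1
      simp only [if_true] at h1
      rcases mem_union.1 h1 with h1 | h1
      · exact h1
      · rcases ht.2 with h0 | h0
        · exact absurd h.pos (by omega)
        · simp only [if_true] at h0
          rw [if_neg (by omega)] at h0
          exact absurd (hKx h1) h0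
    by_cases him : i = m
    · by_cases hjm : j = m
      · rw [him, hjm]
      · rw [him] at hti
        have h1 := new hti
        obtain ⟨h2, h3⟩ := old j hj hjm htj
        exact absurd (h.sub j h2 h3.1) (disjoint_left.1 hU h1)
    · by_cases hjm : j = m
      · rw [hjm] at htj
        have h1 := new htj
        obtain ⟨h2, h3⟩ := old i hi him hti
        exact absurd (h.sub i h2 h3.1) (disjoint_left.1 hU h1)
      · obtain ⟨h2, h3⟩ := old i hi him hti
        obtain ⟨h4, h5⟩ := old j hj hjm htj
        exact h.top v i j h2 h4 h3 h5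

/-- the tree of a parent function -/
def ptree (m : ℕ) (par : ℕ → ℕ) (hlt : ∀ i, 0 < i → i < m → par i < i) : SimpleGraph (Fin m) where
  Adj i j := (0 < i.val ∧ par i.val = j.val) ∨ (0 < j.val ∧ par j.val = i.val)
  symm := ⟨fun _ _ h => h.symm⟩
  loopless := ⟨fun i h => by
    rcases h with h | h <;>
    · have := hlt i.val h.1 i.isLt
      omega⟩

lemma ptree_isTree (hm : 0 < m) (hlt : ∀ i, 0 < i → i < m → par i < i) :
    (ptree m par hlt).IsTree := by
  constructor
  · have : Nonempty (Fin m) := ⟨⟨0, hm⟩⟩
    have key : ∀ n (hn : n < m), (ptree m par hlt).Reachable ⟨n, hn⟩ ⟨0, hm⟩ := by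
      intro n
      induction n using Nat.strong_induction_on with
      | _ n ih =>
        intro hn
        rcases Nat.eq_zero_or_pos n with h0 | h0
        · subst h0; exact Reachable.refl _
        · have h1 := hlt n h0 hn
          have h2 : (ptree m par hlt).Adj ⟨n, hn⟩ ⟨par n, h1.trans hn⟩ := Or.inl ⟨h0, rfl⟩
          exact h2.reachable.trans (ih _ h1 _)
    exact ⟨fun a b => (key a.1 a.2).trans (key b.1 b.2).symm⟩
  · apply acyclic_of_height (ptree m par hlt) (fun i => i.val)
    · rintro u v (h | h)
      · have := hlt u.val h.1 u.isLt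
        omega
      · have := hlt v.val h.1 v.isLt
        omega
    · rintro v u w (h1 | h1) (h2 | h2) hl1 hl2
      · exact Fin.ext (h1.2.symm.trans h2.2)
      · have := hlt w.val h2.1 w.isLt
        omega
      · have := hlt u.val h1.1 u.isLt
        omega
      · have := hlt u.val h1.1 u.isLt
        omega

omit [DecidableEq V] in
lemma PTD.connected (h : PTD G S m par B) (v : V) (hv : v ∈ S) :
    ((ptree m par h.lt).induce {i : Fin m | v ∈ B i.val}).Connected := by
  obtain ⟨i0, hi0, hvi0⟩ := h.cov v hv
  obtain ⟨t, ht, htop⟩ := h.exists_top v i0 hi0 hvi0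
  have htm : t < m := by omega
  have key : ∀ n (hn : n < m) (hvn : v ∈ B n),
      ((ptree m par h.lt).induce {i : Fin m | v ∈ B i.val}).Reachable ⟨⟨n, hn⟩, hvn⟩
        ⟨⟨t, htm⟩, htop.1⟩ := by
    intro n
    induction n using Nat.strong_induction_on with
    | _ n ih =>
      intro hn hvn
      by_cases hnt : Top par B v n
      · have : n = t := h.top v n t hn htm hnt htop
        subst this
        exact Reachable.refl _
      · have hn0 : 0 < n := by
          rcases Nat.eq_zero_or_pos n with h0 | h0
          · exact absurd ⟨hvn, Or.inl h0⟩ hnt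
          · exact h0
        have hp : v ∈ B (par n) := by
          by_contra hc
          exact hnt ⟨hvn, Or.inr hc⟩
        have h1 := h.lt n hn0 hn
        have hadj : ((ptree m par h.lt).induce {i : Fin m | v ∈ B i.val}).Adj ⟨⟨n, hn⟩, hvn⟩
            ⟨⟨par n, h1.trans hn⟩, hp⟩ := Or.inl ⟨hn0, rfl⟩
        exact hadj.reachable.trans (ih _ h1 _ hp)
  have : Nonempty ({i : Fin m | v ∈ B i.val} : Set (Fin m)) := ⟨⟨⟨t, htm⟩, htop.1⟩⟩
  exact ⟨fun a b => (key a.1.1 a.1.2 a.2).trans (key b.1.1 b.1.2 b.2).symm⟩

end Pool.Agent.X57
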