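import Mathlib
import Pool.Agent.X57.Acyclic

/-!
# Sums over the subtrees of a graph (helper57)
-/

namespace Pool.Agent.X57

open SimpleGraph

/-- transfer of reachability -/
lemma weak_reachable {V V' : Type} {R : SimpleGraph V} {R' : SimpleGraph V'} (f : V → V')
    (h : ∀ x y, R.Adj x y → R'.Reachable (f x) (f y)) {x y : V} (hxy : R.Reachable x y) :
    R'.Reachable (f x) (f y) := by
  obtain ⟨p⟩ := hxy
  induction p with
  | nil => exact Reachable.refl _
  | cons hadj _ ih => exact (h _ _ hadj).trans ih

/-- the cut principle -/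
lemma exists_boundary {V : Type} {R : SimpleGraph V} (C : Set V) {x y : V} (hxy : R.Reachable x y)
    (hx : x ∈ C) (hy : y ∉ C) : ∃ a b, a ∈ C ∧ b ∉ C ∧ R.Adj a b := by
  obtain ⟨p⟩ := hxy
  induction p with
  | nil => exact absurd hx hy
  | @cons u v w hadj q ih =>
    by_cases hv : v ∈ C
    · exact ih hv hy
    · exact ⟨u, v, hx, hv, hadj⟩

variable {V : Type} {G : SimpleGraph V}

/-- `H` is a tree, through the graph on the whole vertex set -/
lemma tree_iff (H : G.Subgraph) : H.coe.IsTree ↔
    H.verts.Nonempty ∧ (∀ x ∈ H.verts, ∀ y ∈ H.verts, H.spanningCoe.Reachable x y) ∧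
      H.spanningCoe.IsAcyclic := by
  classical
  constructor
  · intro hT
    obtain ⟨⟨x0, hx0⟩⟩ := hT.connected.nonempty
    refine ⟨⟨x0, hx0⟩, fun x hx y hy => ?_, ?_⟩
    · have := hT.connected.preconnected ⟨x, hx⟩ ⟨y, hy⟩
      exact weak_reachable (R' := H.spanningCoe) (fun z : H.verts => z.1)
        (fun a b hab => Adj.reachable hab) this
    · rw [isAcyclic_iff_forall_adj_isBridge]
      intro x y hxy
      have hxy' : H.Adj x y := hxy
      have hx := H.edge_vert hxy'
      have hy := H.edge_vert hxy'.symm
      have hb : H.coe.IsBridge s(⟨x, hx⟩, ⟨y, hy⟩) :=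
        (isAcyclic_iff_forall_adj_isBridge.1 hT.isAcyclic) hxy'
      rw [isBridge_iff] at hb ⊢
      intro hr
      apply hb
      have := weak_reachable (R' := H.coe.deleteEdges {s(⟨x, hx⟩, ⟨y, hy⟩)})
        (fun z => if hz : z ∈ H.verts then (⟨z, hz⟩ : H.verts) else ⟨x0, hx0⟩) ?_ hr
      · simpa [hx, hy] using this
      · intro a b hab
        rw [deleteEdges_adj] at hab
        obtain ⟨h1, h2⟩ := hab
        have h1' : H.Adj a b := h1
        have ha := H.edge_vert h1'
        have hb := H.edge_vert h1'.symm
        apply Adj.reachable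
        rw [dif_pos ha, dif_pos hb, deleteEdges_adj]
        refine ⟨h1', fun h3 => h2 ?_⟩
        rw [Set.mem_singleton_iff] at h3 ⊢
        rw [Sym2.eq_iff] at h3 ⊢
        rcases h3 with ⟨h3, h4⟩ | ⟨h3, h4⟩
        · left; exact ⟨congrArg Subtype.val h3, congrArg Subtype.val h4⟩
        · right; exact ⟨congrArg Subtype.val h3, congrArg Subtype.val h4⟩
  · rintro ⟨⟨x0, hx0⟩, hr, ha⟩
    refine ⟨?_, ?_⟩
    · have : Nonempty H.verts := ⟨⟨x0, hx0⟩⟩
      refine ⟨?_⟩
      rintro ⟨x, hx⟩ ⟨y, hy⟩
      have := weak_reachable (R' := H.coe)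
        (fun z => if hz : z ∈ H.verts then (⟨z, hz⟩ : H.verts) else ⟨x0, hx0⟩) ?_ (hr x hx y hy)
      · simpa [hx, hy] using this
      · intro a b hab
        have h1' : H.Adj a b := hab
        have ha := H.edge_vert h1'
        have hb := H.edge_vert h1'.symm
        apply Adj.reachable
        rw [dif_pos ha, dif_pos hb]
        exact h1'
    · let φ : H.coe →g H.spanningCoe := ⟨fun z => z.1, fun {a b} hab => hab⟩
      exact ha.comap φ Subtype.val_injective

section Sums

open scoped Classical in
/-- the finite set of the subtrees of `G` -/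
noncomputable def trees (G : SimpleGraph V) [Finite V] : Finset G.Subgraph :=
  (Set.toFinite {H : G.Subgraph | H.coe.IsTree}).toFinset

lemma mem_trees [Finite V] {H : G.Subgraph} : H ∈ trees G ↔ H.coe.IsTree := by
  simp [trees]

variable {V' : Type} {G' : SimpleGraph V'}

lemma map_isTree (φ : G ↪g G') (H : G.Subgraph) : (H.map φ.toHom).coe.IsTree ↔ H.coe.IsTree := by
  let e : H.coe ≃g (H.map φ.toHom).coe :=
    { toEquiv := Equiv.Set.image φ H.verts φ.injective
      map_rel_iff' := by
        rintro ⟨a, ha⟩ ⟨b, hb⟩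
        change Relation.Map H.Adj φ φ (φ a) (φ b) ↔ H.Adj a b
        constructor
        · rintro ⟨c, d, hcd, hc, hd⟩
          rw [← φ.injective hc, ← φ.injective hd]
          exact hcd
        · intro h
          exact ⟨a, b, h, rfl, rfl⟩ }
  exact e.isTree_iff.symm

open scoped Classical in
/-- Sums over subtrees and graph embeddings. -/
lemma sum_embedding [Finite V] [Finite V'] (φ : G ↪g G') (F : Set V' → ℝ) :
    ∑ K ∈ (trees G').filter (fun K => K.verts ⊆ Set.range φ), F K.verts =
      ∑ H ∈ trees G, F (φ '' H.verts) := by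
  symm
  have hcm : ∀ H : G.Subgraph, (H.map φ.toHom).comap φ.toHom = H := by
    intro H
    apply Subgraph.ext
    · ext x
      change φ x ∈ φ '' H.verts ↔ _
      exact φ.injective.mem_set_image
    · ext x y
      change (G.Adj x y ∧ Relation.Map H.Adj φ φ (φ x) (φ y)) ↔ _
      constructor
      · rintro ⟨-, c, d, hcd, hc, hd⟩
        rw [← φ.injective hc, ← φ.injective hd]
        exact hcd
      · intro h
        exact ⟨H.adj_sub h, x, y, h, rfl, rfl⟩
  have hmc : ∀ K : G'.Subgraph, K.verts ⊆ Set.range φ → (K.comap φ.toHom).map φ.toHom = K := by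
    intro K hK
    apply Subgraph.ext
    · ext x
      change x ∈ φ '' (φ ⁻¹' K.verts) ↔ _
      constructor
      · rintro ⟨y, hy, rfl⟩
        exact hy
      · intro hx
        obtain ⟨y, rfl⟩ := hK hx
        exact ⟨y, hx, rfl⟩
    · ext x y
      change Relation.Map (fun a b => G.Adj a b ∧ K.Adj (φ a) (φ b)) φ φ x y ↔ _
      constructor
      · rintro ⟨c, d, ⟨-, hcd⟩, rfl, rfl⟩
        exact hcd
      · intro h
        obtain ⟨a, rfl⟩ := hK (K.edge_vert h)
        obtain ⟨b, rfl⟩ := hK (K.edge_vert h.symm)
        exact ⟨a, b, ⟨φ.map_adj_iff.1 (K.adj_sub h), h⟩, rfl, rfl⟩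
  refine Finset.sum_nbij' (fun H => H.map φ.toHom) (fun K => K.comap φ.toHom) ?_ ?_ ?_ ?_ ?_
  · intro H hH
    rw [mem_trees] at hH
    rw [Finset.mem_filter, mem_trees, map_isTree]
    refine ⟨hH, ?_⟩
    rintro _ ⟨x, -, rfl⟩
    exact ⟨x, rfl⟩
  · intro K hK
    rw [Finset.mem_filter, mem_trees] at hK
    rw [mem_trees, ← map_isTree φ, hmc K hK.2]
    exact hK.1
  · intro H _
    exact hcm H
  · intro K hK
    exact hmc K (Finset.mem_filter.1 hK).2
  · intro H _
    rfl

open scoped Classical in
/-- Sums over the subtrees containing a leaf `v` with neighbour `u`. -/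
lemma sum_leaf [Finite V] {u v : V} (huv : G.Adj u v) (hleaf : ∀ y, G.Adj v y → y = u)
    (F : ℕ → ℝ) :
    ∑ K ∈ (trees G).filter (fun K => v ∈ K.verts), F K.verts.ncard =
      F 1 + ∑ K ∈ (trees G).filter (fun K => v ∉ K.verts ∧ u ∈ K.verts), F (K.verts.ncard + 1) := by
  have hne : u ≠ v := huv.ne
  -- split off the single vertex
  have hsingle : G.singletonSubgraph v ∈ (trees G).filter (fun K => v ∈ K.verts) := by
    rw [Finset.mem_filter, mem_trees]
    exact ⟨IsTree.coe_singletonSubgraph G v, by simp⟩
  rw [← Finset.add_sum_erase _ _ hsingle]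
  congr 1
  · simp
  -- the others
  have hnb : ∀ K ∈ ((trees G).filter (fun K => v ∈ K.verts)).erase (G.singletonSubgraph v),
      K.Adj v u := by
    intro K hK
    rw [Finset.mem_erase, Finset.mem_filter, mem_trees, tree_iff] at hK
    obtain ⟨h1, ⟨-, h2, -⟩, h3⟩ := hK
    have : ∃ x ∈ K.verts, x ≠ v := by
      by_contra hcon
      push Not at hcon
      apply h1
      have hv : K.verts = {v} := Set.eq_singleton_iff_unique_mem.2 ⟨h3, hcon⟩
      apply Subgraph.ext
      · rw [hv]; rfl
      · ext a b
        simp only [singletonSubgraph_adj, Pi.bot_apply, Prop.bot_eq_false, iff_false]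
        intro hab
        have ha := hcon a (K.edge_vert hab)
        have hb := hcon b (K.edge_vert hab.symm)
        rw [ha, hb] at hab
        exact (K.adj_sub hab).ne rfl
    obtain ⟨x, hx, hxv⟩ := this
    obtain ⟨a, b, ha, hb, hab⟩ := exists_boundary ({v} : Set V) (h2 v h3 x hx) rfl
      (by simpa using hxv)
    rw [Set.mem_singleton_iff] at ha
    subst ha
    have := hleaf b (K.adj_sub hab)
    rw [← this]
    exact hab
  refine Finset.sum_nbij' (fun K => K.deleteVerts {v}) (fun K => K ⊔ G.subgraphOfAdj huv)
    ?_ ?_ ?_ ?_ ?_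
  · intro K hK
    have hvu := hnb K hK
    rw [Finset.mem_erase, Finset.mem_filter, mem_trees, tree_iff] at hK
    obtain ⟨h1, ⟨-, h2, h4⟩, h3⟩ := hK
    have hu : u ∈ K.verts := K.edge_vert hvu.symm
    rw [Finset.mem_filter, mem_trees, tree_iff]
    refine ⟨⟨⟨u, hu, by simpa using hne⟩, ?_, ?_⟩, by simp, hu, by simpa using hne⟩
    · rintro x ⟨hx, hxv⟩ y ⟨hy, hyv⟩
      rw [Set.mem_singleton_iff] at hxv hyv
      have := weak_reachable (R' := (K.deleteVerts {v}).spanningCoe)
        (fun z => if z = v then u else z) ?_ (h2 x hx y hy)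
      · simpa [hxv, hyv] using this
      · intro a b hab
        have hab' : K.Adj a b := hab
        by_cases ha : a = v
        · subst ha
          have hb := hleaf b (K.adj_sub hab')
          subst hb
          simp [hne]
        · by_cases hb : b = v
          · subst hb
            have ha' := hleaf a (K.adj_sub hab'.symm)
            subst ha'
            simp [hne]
          · simp only [if_neg ha, if_neg hb]
            apply Adj.reachable
            change (K.deleteVerts {v}).Adj a b
            rw [Subgraph.deleteVerts_adj]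
            exact ⟨K.edge_vert hab', by simpa using ha, K.edge_vert hab'.symm, by simpa using hb,
              hab'⟩
    · apply h4.anti
      intro a b hab
      have hab' : (K.deleteVerts {v}).Adj a b := hab
      rw [Subgraph.deleteVerts_adj] at hab'
      exact hab'.2.2.2.2
  · intro K hK
    rw [Finset.mem_filter, mem_trees, tree_iff] at hK
    obtain ⟨⟨-, h2, h4⟩, hv, hu⟩ := hK
    have hspan : (K ⊔ G.subgraphOfAdj huv).spanningCoe = K.spanningCoe ⊔ edge u v := by
      ext a b
      rw [Subgraph.spanningCoe_adj, Subgraph.sup_adj, subgraphOfAdj_adj, sup_adj,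
        Subgraph.spanningCoe_adj, edge_adj, Sym2.eq_iff]
      constructor
      · rintro (h | h)
        · exact Or.inl h
        · right
          rcases h with ⟨h5, h6⟩ | ⟨h5, h6⟩
          · subst h5; subst h6; exact ⟨Or.inl ⟨rfl, rfl⟩, hne⟩
          · subst h5; subst h6; exact ⟨Or.inr ⟨rfl, rfl⟩, hne.symm⟩
      · rintro (h | ⟨h, -⟩)
        · exact Or.inl h
        · right
          rcases h with ⟨h5, h6⟩ | ⟨h5, h6⟩
          · exact Or.inl ⟨h5.symm, h6.symm⟩
          · exact Or.inr ⟨h6.symm, h5.symm⟩
    have huvadj : (K ⊔ G.subgraphOfAdj huv).Adj u v := by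
      rw [Subgraph.sup_adj]; right; simp
    rw [Finset.mem_erase, Finset.mem_filter, mem_trees, tree_iff]
    refine ⟨?_, ⟨⟨u, Or.inl hu⟩, ?_, ?_⟩, ?_⟩
    · intro h
      have : (K ⊔ G.subgraphOfAdj huv).verts = {v} := by rw [h]; rfl
      have h5 : u ∈ (K ⊔ G.subgraphOfAdj huv).verts := Or.inl hu
      rw [this] at h5
      exact hne h5
    · have key : ∀ x ∈ (K ⊔ G.subgraphOfAdj huv).verts,
          (K ⊔ G.subgraphOfAdj huv).spanningCoe.Reachable x u := by
        intro x hx
        rw [Subgraph.verts_sup] at hx
        rcases hx with hx | hx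
        · refine (h2 x hx u hu).mono ?_
          rw [hspan]
          exact le_sup_left
        · simp only [subgraphOfAdj_verts, Set.mem_insert_iff, Set.mem_singleton_iff] at hx
          rcases hx with rfl | rfl
          · exact Reachable.refl _
          · exact (Adj.reachable (G := (K ⊔ G.subgraphOfAdj huv).spanningCoe) huvadj).symm
      intro x hx y hy
      exact (key x hx).trans (key y hy).symm
    · rw [hspan, isAcyclic_add_edge_iff_of_not_reachable]
      · exact h4
      · intro hr
        obtain ⟨a, b, ha, hb, hab⟩ := exists_boundary ({v} : Set V) hr.symm rfl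
          (by simpa using hne)
        rw [Set.mem_singleton_iff] at ha
        subst ha
        exact hv (K.edge_vert hab)
    · exact (K ⊔ G.subgraphOfAdj huv).edge_vert huvadj.symm
  · intro K hK
    have hvu := hnb K hK
    rw [Finset.mem_erase, Finset.mem_filter] at hK
    apply Subgraph.ext
    · ext x
      simp only [Subgraph.verts_sup, Subgraph.deleteVerts_verts, subgraphOfAdj_verts,
        Set.mem_union, Set.mem_sdiff, Set.mem_singleton_iff, Set.mem_insert_iff]
      constructor
      · rintro (h | rfl | rfl)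
        · exact h.1
        · exact K.edge_vert hvu.symm
        · exact hK.2.2
      · intro hx
        by_cases hxv : x = v
        · right; right; exact hxv
        · left; exact ⟨hx, hxv⟩
    · ext a b
      rw [Subgraph.sup_adj, Subgraph.deleteVerts_adj, subgraphOfAdj_adj, Sym2.eq_iff]
      simp only [Set.mem_singleton_iff]
      constructor
      · rintro (h | ⟨rfl, rfl⟩ | ⟨rfl, rfl⟩)
        · exact h.2.2.2.2
        · exact hvu.symm
        · exact hvu
      · intro hab
        by_cases ha : a = v
        · subst ha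
          have hb := hleaf b (K.adj_sub hab)
          subst hb
          right; right; exact ⟨rfl, rfl⟩
        · by_cases hb : b = v
          · subst hb
            have ha' := hleaf a (K.adj_sub hab.symm)
            subst ha'
            right; left; exact ⟨rfl, rfl⟩
          · left
            exact ⟨K.edge_vert hab, ha, K.edge_vert hab.symm, hb, hab⟩
  · intro K hK
    rw [Finset.mem_filter] at hK
    obtain ⟨-, hv, hu⟩ := hK
    apply Subgraph.ext
    · ext x
      simp only [Subgraph.verts_sup, Subgraph.deleteVerts_verts, subgraphOfAdj_verts,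
        Set.mem_union, Set.mem_sdiff, Set.mem_singleton_iff, Set.mem_insert_iff]
      constructor
      · rintro ⟨h | rfl | rfl, h2⟩
        · exact h
        · exact hu
        · exact absurd rfl h2
      · intro hx
        exact ⟨Or.inl hx, fun h => hv (h ▸ hx)⟩
    · ext a b
      rw [Subgraph.deleteVerts_adj, Subgraph.sup_adj, subgraphOfAdj_adj, Sym2.eq_iff]
      simp only [Set.mem_singleton_iff]
      constructor
      · rintro ⟨-, ha, -, hb, h | ⟨-, h5⟩ | ⟨-, h5⟩⟩
        · exact h
        · exact absurd h5.symm hb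
        · exact absurd h5.symm ha
      · intro hab
        have ha := K.edge_vert hab
        have hb := K.edge_vert hab.symm
        exact ⟨Or.inl ha, fun h => hv (h ▸ ha), Or.inl hb, fun h => hv (h ▸ hb), Or.inl hab⟩
  · intro K hK
    rw [Finset.mem_erase, Finset.mem_filter] at hK
    congr 1
    have : (K.deleteVerts {v}).verts = K.verts \ {v} := rfl
    change K.verts.ncard = (K.verts \ {v}).ncard + 1
    rw [Set.ncard_sdiff_singleton_add_one hK.2.2 (Set.toFinite _)]

end Sums

end Pool.Agent.X57
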