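import Mathlib
import Pool.Agent.X57.PTD
import Pool.Agent.X57.SubT

/-!
# Models of the triangle and of the 4-cycle (helper57)
-/

namespace Pool.Agent.X57.SmallMinor

open SimpleGraph

variable {V : Type} {G : SimpleGraph V}

/-- the graph of the edges inside `B` -/
def res (G : SimpleGraph V) (B : Set V) : SimpleGraph V where
  Adj x y := G.Adj x y ∧ x ∈ B ∧ y ∈ B
  symm := ⟨fun _ _ h => ⟨h.1.symm, h.2.2, h.2.1⟩⟩
  loopless := ⟨fun _ h => h.1.ne rfl⟩

lemma conn_iff (B : Set V) : (G.induce B).Connected ↔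
    B.Nonempty ∧ ∀ x ∈ B, ∀ y ∈ B, (res G B).Reachable x y := by
  classical
  constructor
  · intro h
    obtain ⟨⟨x0, hx0⟩⟩ := h.nonempty
    refine ⟨⟨x0, hx0⟩, fun x hx y hy => ?_⟩
    exact weak_reachable (R' := res G B) (fun z : B => z.1)
      (fun a b hab => Adj.reachable ⟨hab, a.2, b.2⟩) (h.preconnected ⟨x, hx⟩ ⟨y, hy⟩)
  · rintro ⟨⟨x0, hx0⟩, h⟩
    have : Nonempty B := ⟨⟨x0, hx0⟩⟩
    refine ⟨?_⟩
    rintro ⟨x, hx⟩ ⟨y, hy⟩
    have := weak_reachable (R' := G.induce B)
      (fun z => if hz : z ∈ B then (⟨z, hz⟩ : B) else ⟨x0, hx0⟩) ?_ (h x hx y hy)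
    · simpa [hx, hy] using this
    · rintro a b ⟨hab, ha, hb⟩
      apply Adj.reachable
      rw [dif_pos ha, dif_pos hb]
      exact hab

lemma conn_of_center {B : Set V} {x0 : V} (h0 : x0 ∈ B) (h : ∀ x ∈ B, (res G B).Reachable x0 x) :
    (G.induce B).Connected := by
  rw [conn_iff]
  exact ⟨⟨x0, h0⟩, fun x hx y hy => (h x hx).symm.trans (h y hy)⟩

lemma res_mono {A B : Set V} (h : A ⊆ B) : res G A ≤ res G B :=
  fun _ _ hab => ⟨hab.1, h hab.2.1, h hab.2.2⟩

lemma conn_singleton (x : V) : (G.induce ({x} : Set V)).Connected := by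
  apply conn_of_center (x0 := x) (Set.mem_singleton x)
  rintro y hy
  rw [Set.mem_singleton_iff.1 hy]

/-- two sets joined by an edge -/
def AdjS (G : SimpleGraph V) (X Y : Set V) : Prop := ∃ x ∈ X, ∃ y ∈ Y, G.Adj x y

lemma AdjS.symm {X Y : Set V} (h : AdjS G X Y) : AdjS G Y X := by
  obtain ⟨x, hx, y, hy, hxy⟩ := h
  exact ⟨y, hy, x, hx, hxy.symm⟩

lemma AdjS.mono {X Y X' Y' : Set V} (h : AdjS G X Y) (h1 : X ⊆ X') (h2 : Y ⊆ Y') :
    AdjS G X' Y' := by
  obtain ⟨x, hx, y, hy, hxy⟩ := h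
  exact ⟨x, h1 hx, y, h2 hy, hxy⟩

lemma conn_union {X Y : Set V} (hX : (G.induce X).Connected) (hY : (G.induce Y).Connected)
    (h : AdjS G X Y) : (G.induce (X ∪ Y)).Connected := by
  rw [conn_iff] at hX hY
  obtain ⟨a, ha, b, hb, hab⟩ := h
  apply conn_of_center (x0 := a) (Or.inl ha)
  have h1 : (res G (X ∪ Y)).Reachable a b := Adj.reachable ⟨hab, Or.inl ha, Or.inr hb⟩
  rintro x (hx | hx)
  · exact (hX.2 a ha x hx).mono (res_mono Set.subset_union_left)
  · exact h1.trans ((hY.2 b hb x hx).mono (res_mono Set.subset_union_right))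

/-- models of the triangle -/
structure K3m (G : SimpleGraph V) (X Y Z : Set V) : Prop where
  cX : (G.induce X).Connected
  cY : (G.induce Y).Connected
  cZ : (G.induce Z).Connected
  dXY : Disjoint X Y
  dYZ : Disjoint Y Z
  dZX : Disjoint Z X
  aXY : AdjS G X Y
  aYZ : AdjS G Y Z
  aZX : AdjS G Z X

lemma K3m.rot {X Y Z : Set V} (h : K3m G X Y Z) : K3m G Y Z X :=
  ⟨h.cY, h.cZ, h.cX, h.dYZ, h.dZX, h.dXY, h.aYZ, h.aZX, h.aXY⟩

/-- models of the 4-cycle -/
structure C4m (G : SimpleGraph V) (A B C D : Set V) : Prop where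
  cA : (G.induce A).Connected
  cB : (G.induce B).Connected
  cC : (G.induce C).Connected
  cD : (G.induce D).Connected
  dAB : Disjoint A B
  dAC : Disjoint A C
  dAD : Disjoint A D
  dBC : Disjoint B C
  dBD : Disjoint B D
  dCD : Disjoint C D
  aAB : AdjS G A B
  aBC : AdjS G B C
  aCD : AdjS G C D
  aDA : AdjS G D A

/-- there is a model of the triangle in `U` -/
def HasK3 (G : SimpleGraph V) (U : Set V) : Prop :=
  ∃ X Y Z, X ⊆ U ∧ Y ⊆ U ∧ Z ⊆ U ∧ K3m G X Y Z

/-- there is a model of the 4-cycle in `U` -/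
def HasC4 (G : SimpleGraph V) (U : Set V) : Prop :=
  ∃ A B C D, A ⊆ U ∧ B ⊆ U ∧ C ⊆ U ∧ D ⊆ U ∧ C4m G A B C D

lemma HasC4.mono {U U' : Set V} (h : HasC4 G U) (hU : U ⊆ U') : HasC4 G U' := by
  obtain ⟨A, B, C, D, h1, h2, h3, h4, h5⟩ := h
  exact ⟨A, B, C, D, h1.trans hU, h2.trans hU, h3.trans hU, h4.trans hU, h5⟩

lemma HasC4.hasK3 {U : Set V} (h : HasC4 G U) : HasK3 G U := by
  obtain ⟨A, B, C, D, h1, h2, h3, h4, h⟩ := h
  refine ⟨A, B, C ∪ D, h1, h2, Set.union_subset h3 h4, ?_⟩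
  exact ⟨h.cA, h.cB, conn_union h.cC h.cD h.aCD, h.dAB,
    Set.disjoint_union_right.2 ⟨h.dBC, h.dBD⟩,
    Set.disjoint_union_left.2 ⟨h.dAC.symm, h.dAD.symm⟩, h.aAB,
    h.aBC.mono Set.Subset.rfl Set.subset_union_left,
    h.aDA.mono Set.subset_union_right Set.Subset.rfl⟩

/-! ### Suppressing a vertex of degree two -/

/-- the set with the vertex `v` added if `a` belongs to it -/
def aug (a v : V) (X : Set V) : Set V := {x | x ∈ X ∨ (x = v ∧ a ∈ X)}

lemma sub_aug (a v : V) (X : Set V) : X ⊆ aug a v X := fun _ h => Or.inl h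

lemma conn_aug {a b v : V} (hva : G.Adj v a) (hvb : G.Adj v b) {X : Set V}
    (h : ((G ⊔ edge a b).induce X).Connected) : (G.induce (aug a v X)).Connected := by
  rw [conn_iff] at h
  obtain ⟨⟨x0, hx0⟩, h⟩ := h
  have key : ∀ x ∈ X, ∀ y ∈ X, (res G (aug a v X)).Reachable x y := by
    intro x hx y hy
    apply weak_reachable (R' := res G (aug a v X)) (fun z => z) ?_ (h x hx y hy)
    rintro c d ⟨hcd, hc, hd⟩
    rw [sup_adj, edge_adj] at hcd
    rcases hcd with hcd | ⟨⟨h1, h2⟩ | ⟨h1, h2⟩, -⟩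
    · exact Adj.reachable ⟨hcd, Or.inl hc, Or.inl hd⟩
    · subst h1; subst h2
      have hv : v ∈ aug c v X := Or.inr ⟨rfl, hc⟩
      exact (Adj.reachable (G := res G (aug c v X)) ⟨hva.symm, Or.inl hc, hv⟩).trans
        (Adj.reachable ⟨hvb, hv, Or.inl hd⟩)
    · subst h1; subst h2
      have hv : v ∈ aug d v X := Or.inr ⟨rfl, hd⟩
      exact (Adj.reachable (G := res G (aug d v X)) ⟨hvb.symm, Or.inl hc, hv⟩).trans
        (Adj.reachable ⟨hva, hv, Or.inl hd⟩)
  apply conn_of_center (x0 := x0) (Or.inl hx0)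
  rintro x (hx | ⟨rfl, ha⟩)
  · exact key x0 hx0 x hx
  · exact (key x0 hx0 a ha).trans (Adj.reachable ⟨hva.symm, Or.inl ha, Or.inr ⟨rfl, ha⟩⟩)

lemma disj_aug {a v : V} {X Y : Set V} (h : Disjoint X Y) (hX : v ∉ X) (hY : v ∉ Y) :
    Disjoint (aug a v X) (aug a v Y) := by
  rw [Set.disjoint_left] at h ⊢
  rintro x (hx | ⟨hx, ha⟩) (hy | ⟨hy, hb⟩)
  · exact h hx hy
  · rw [hy] at hx; exact hX hx
  · rw [hx] at hy; exact hY hy
  · exact h ha hb

lemma adj_aug {a b v : V} (hva : G.Adj v a) (hvb : G.Adj v b) {X Y : Set V}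
    (h : AdjS (G ⊔ edge a b) X Y) : AdjS G (aug a v X) (aug a v Y) := by
  obtain ⟨c, hc, d, hd, hcd⟩ := h
  rw [sup_adj, edge_adj] at hcd
  rcases hcd with hcd | ⟨⟨h1, h2⟩ | ⟨h1, h2⟩, -⟩
  · exact ⟨c, Or.inl hc, d, Or.inl hd, hcd⟩
  · subst h1; subst h2
    exact ⟨v, Or.inr ⟨rfl, hc⟩, d, Or.inl hd, hvb⟩
  · subst h1; subst h2
    exact ⟨c, Or.inl hc, v, Or.inr ⟨rfl, hd⟩, hvb.symm⟩

lemma hasC4_aug {a b v : V} (hva : G.Adj v a) (hvb : G.Adj v b) {U : Set V} (hv : v ∈ U)
    (h : HasC4 (G ⊔ edge a b) (U \ {v})) : HasC4 G U := by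
  obtain ⟨A, B, C, D, h1, h2, h3, h4, h⟩ := h
  have hsub : ∀ {X : Set V}, X ⊆ U \ {v} → aug a v X ⊆ U := by
    rintro X hX x (hx | ⟨rfl, -⟩)
    · exact (hX hx).1
    · exact hv
  have hn : ∀ {X : Set V}, X ⊆ U \ {v} → v ∉ X := fun hX hx => (hX hx).2 rfl
  exact ⟨aug a v A, aug a v B, aug a v C, aug a v D, hsub h1, hsub h2, hsub h3, hsub h4,
    conn_aug hva hvb h.cA, conn_aug hva hvb h.cB, conn_aug hva hvb h.cC, conn_aug hva hvb h.cD,
    disj_aug h.dAB (hn h1) (hn h2), disj_aug h.dAC (hn h1) (hn h3), disj_aug h.dAD (hn h1) (hn h4),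
    disj_aug h.dBC (hn h2) (hn h3), disj_aug h.dBD (hn h2) (hn h4), disj_aug h.dCD (hn h3) (hn h4),
    adj_aug hva hvb h.aAB, adj_aug hva hvb h.aBC, adj_aug hva hvb h.aCD, adj_aug hva hvb h.aDA⟩

/-! ### A vertex of degree at most two -/

lemma exists_low {S : Set V} (hfin : S.Finite) (hne : S.Nonempty) (h : ¬ HasC4 G S) :
    ∃ v ∈ S, ∃ a b, ∀ y ∈ S, G.Adj v y → y = a ∨ y = b := by
  classical
  have : Finite S := hfin
  have : Nonempty S := hne.to_subtype
  obtain ⟨u, w, p, hp, hmax⟩ := Walk.exists_isPath_forall_isPath_length_le_length (G.induce S)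
  refine ⟨u.1, u.2, (p.getVert 1).1, (p.getVert 2).1, fun y hy huy => ?_⟩
  have hadj : (G.induce S).Adj ⟨y, hy⟩ u := huy.symm
  have hmem : (⟨y, hy⟩ : S) ∈ p.support := by
    by_contra hcon
    have := hmax _ _ (Walk.cons hadj p) (hp.cons hcon)
    rw [Walk.length_cons] at this
    omega
  obtain ⟨j, hj, hjl⟩ := Walk.mem_support_iff_exists_getVert.1 hmem
  have hj0 : j ≠ 0 := by
    rintro rfl
    rw [Walk.getVert_zero] at hj
    rw [← hj] at hadj
    exact hadj.ne rfl
  by_cases hj3 : 3 ≤ j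
  · exfalso
    apply h
    have hinj : ∀ {m n : ℕ}, m ≤ p.length → n ≤ p.length → (p.getVert m).1 = (p.getVert n).1 →
        m = n := by
      intro m n hm hn he
      exact hp.getVert_injOn (by rw [Set.mem_ofPred_eq]; exact hm)
        (by rw [Set.mem_ofPred_eq]; exact hn) (Subtype.ext he)
    have hadj' : ∀ m, m < p.length → G.Adj (p.getVert m).1 (p.getVert (m + 1)).1 :=
      fun m hm => p.adj_getVert_succ hm
    set D : Set V := {x | ∃ n, 3 ≤ n ∧ n ≤ j ∧ x = (p.getVert n).1} with hD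
    have hDc : (G.induce D).Connected := by
      refine conn_of_center (B := D) (x0 := (p.getVert 3).1) ⟨3, le_rfl, hj3, rfl⟩ ?_
      have key : ∀ n, 3 ≤ n → n ≤ j → (res G D).Reachable (p.getVert 3).1 (p.getVert n).1 := by
        intro n hn
        induction n, hn using Nat.le_induction with
        | base => intro _; exact Reachable.refl _
        | succ n hn ih =>
          intro hnj
          exact (ih (by omega)).trans (Adj.reachable ⟨hadj' n (by omega), ⟨n, hn, by omega, rfl⟩,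
            ⟨n + 1, by omega, hnj, rfl⟩⟩)
      rintro x ⟨n, h1, h2, rfl⟩
      exact key n h1 h2
    have hds : ∀ {m n : ℕ}, m ≤ p.length → n ≤ p.length → m ≠ n →
        Disjoint ({(p.getVert m).1} : Set V) {(p.getVert n).1} := by
      intro m n hm hn hmn
      rw [Set.disjoint_singleton]
      exact fun he => hmn (hinj hm hn he)
    have hdD : ∀ {m : ℕ}, m ≤ 2 → Disjoint ({(p.getVert m).1} : Set V) D := by
      intro m hm
      rw [Set.disjoint_singleton_left]
      rintro ⟨n, h1, h2, h3⟩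
      have := hinj (by omega) (by omega) h3
      omega
    refine ⟨{(p.getVert 0).1}, {(p.getVert 1).1}, {(p.getVert 2).1}, D, ?_, ?_, ?_, ?_,
      conn_singleton _, conn_singleton _, conn_singleton _, hDc,
      hds (by omega) (by omega) (by omega), hds (by omega) (by omega) (by omega),
      hdD (by omega), hds (by omega) (by omega) (by omega), hdD (by omega), hdD (by omega),
      ⟨_, rfl, _, rfl, hadj' 0 (by omega)⟩, ⟨_, rfl, _, rfl, hadj' 1 (by omega)⟩,
      ⟨_, rfl, _, ⟨3, le_rfl, hj3, rfl⟩, hadj' 2 (by omega)⟩, ?_⟩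
    · rintro x rfl; exact Subtype.coe_prop _
    · rintro x rfl; exact Subtype.coe_prop _
    · rintro x rfl; exact Subtype.coe_prop _
    · rintro x ⟨n, -, -, rfl⟩; exact Subtype.coe_prop _
    · refine ⟨y, ⟨j, hj3, le_rfl, by rw [hj]⟩, _, rfl, ?_⟩
      rw [Walk.getVert_zero]
      exact huy.symm
  · have : j = 1 ∨ j = 2 := by omega
    rcases this with rfl | rfl
    · left; rw [hj]
    · right; rw [hj]

/-! ### Small width -/

lemma ptd_mono {V : Type} {G G' : SimpleGraph V} (hG : G ≤ G') {S : Finset V} {m : ℕ}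
    {par : ℕ → ℕ} {B : ℕ → Finset V} (h : PTD G' S m par B) : PTD G S m par B :=
  ⟨h.pos, h.lt, h.sub, h.cov, fun u hu v hv huv => h.edge u hu v hv (hG huv), h.top⟩

/-- a graph without a model of the 4-cycle has treewidth at most two -/
lemma exists_ptd [DecidableEq V] : ∀ (n : ℕ) (G : SimpleGraph V) (S : Finset V), S.card = n →
    ¬ HasC4 G (S : Set V) → ∃ m par B, PTD G S m par B ∧ ∀ i < m, (B i).card ≤ 3 := by
  classical
  intro n
  induction n with
  | zero =>
    intro G S hS _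
    exact ⟨1, fun _ => 0, fun _ => S, PTD.single G S, fun _ _ => by
      change S.card ≤ 3
      omega⟩
  | succ n ih =>
    intro G S hS h
    have hne : S.Nonempty := by rw [← Finset.card_pos]; omega
    obtain ⟨v, hv, a, b, hab⟩ := exists_low (G := G) S.finite_toSet (Finset.coe_nonempty.2 hne) h
    have hvS : v ∈ S := hv
    have hcard : (S.erase v).card = n := by rw [Finset.card_erase_of_mem hvS, hS]; omega
    have hcoe : ((S.erase v : Finset V) : Set V) = (S : Set V) \ {v} := Finset.coe_erase v S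
    -- the neighbours of `v`
    set K : Finset V := (S.erase v).filter (fun y => G.Adj v y) with hK
    have hKsub : K ⊆ {a, b} := by
      intro y hy
      rw [hK, Finset.mem_filter, Finset.mem_erase] at hy
      rw [Finset.mem_insert, Finset.mem_singleton]
      exact hab y hy.1.2 hy.2
    have hKcard : K.card ≤ 2 := (Finset.card_le_card hKsub).trans Finset.card_le_two
    -- the graph in which the neighbours are adjacent
    obtain ⟨G', hG', hno, hcl, hnb⟩ : ∃ G' : SimpleGraph V, G ≤ G' ∧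
        ¬ HasC4 G' ((S.erase v : Finset V) : Set V) ∧
        (∀ x ∈ K, ∀ y ∈ K, x ≠ y → G'.Adj x y) ∧
        (∀ y ∈ S.erase v, G'.Adj v y → G.Adj v y) := by
      by_cases hboth : G.Adj v a ∧ G.Adj v b ∧ a ≠ b
      · obtain ⟨h1, h2, h3⟩ := hboth
        refine ⟨G ⊔ edge a b, le_sup_left, ?_, ?_, ?_⟩
        · rw [hcoe]
          exact fun h4 => h (hasC4_aug h1 h2 hv h4)
        · intro x hx y hy hxy
          have hx' := hKsub hx
          have hy' := hKsub hy
          rw [Finset.mem_insert, Finset.mem_singleton] at hx' hy'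
          rw [sup_adj, edge_adj]
          right
          rcases hx' with rfl | rfl <;> rcases hy' with rfl | rfl
          · exact absurd rfl hxy
          · exact ⟨Or.inl ⟨rfl, rfl⟩, hxy⟩
          · exact ⟨Or.inr ⟨rfl, rfl⟩, hxy⟩
          · exact absurd rfl hxy
        · intro y _ hvy
          rw [sup_adj, edge_adj] at hvy
          rcases hvy with hvy | ⟨⟨h4, -⟩ | ⟨h4, -⟩, -⟩
          · exact hvy
          · rw [← h4] at h1; exact absurd rfl h1.ne
          · rw [← h4] at h2; exact absurd rfl h2.ne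
      · refine ⟨G, le_rfl, ?_, ?_, fun y _ h => h⟩
        · rw [hcoe]
          exact fun h4 => h (h4.mono Set.sdiff_subset)
        · intro x hx y hy hxy
          exfalso
          apply hboth
          have hx' := hKsub hx
          have hy' := hKsub hy
          rw [Finset.mem_insert, Finset.mem_singleton] at hx' hy'
          rw [hK, Finset.mem_filter] at hx hy
          rcases hx' with rfl | rfl <;> rcases hy' with rfl | rfl
          · exact absurd rfl hxy
          · exact ⟨hx.2, hy.2, hxy⟩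
          · exact ⟨hy.2, hx.2, hxy.symm⟩
          · exact absurd rfl hxy
    obtain ⟨m, par, B, hptd, hB⟩ := ih G' (S.erase v) hcard hno
    have hKS : K ⊆ S.erase v := Finset.filter_subset _ _
    obtain ⟨x, hxm, hKx⟩ := hptd.clique K hKS hcl
    have hnew := hptd.addLeaf {v} K (by simp) hKS x hxm hKx (by
      intro u hu y hy huy
      rw [Finset.mem_singleton] at hu
      subst hu
      rw [hK, Finset.mem_filter]
      exact ⟨hy, hnb y hy huy⟩)
    have hS' : S.erase v ∪ {v} = S := by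
      ext x
      rw [Finset.mem_union, Finset.mem_erase, Finset.mem_singleton]
      constructor
      · rintro (h1 | rfl)
        · exact h1.2
        · exact hvS
      · intro h1
        by_cases h2 : x = v
        · exact Or.inr h2
        · exact Or.inl ⟨h2, h1⟩
    rw [hS'] at hnew
    refine ⟨m + 1, _, _, ptd_mono hG' hnew, fun i hi => ?_⟩
    by_cases him : i = m
    · rw [if_pos him]
      have h1 := Finset.card_union_le ({v} : Finset V) K
      rw [Finset.card_singleton] at h1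
      omega
    · rw [if_neg him]
      exact hB i (by omega)

end Pool.Agent.X57.SmallMinor
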