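import Mathlib
import Pool.Agent.X57.SmallMinor

/-!
# Triangles in small models, and lifting (helper57)
-/

namespace Pool.Agent.X57.SmallMinor

open SimpleGraph

variable {V : Type} {G : SimpleGraph V}

lemma exists_noncut {X : Set V} (hf : X.Finite) (h : (G.induce X).Connected)
    (h2 : X.Nontrivial) : ∃ q ∈ X, (G.induce (X \ {q})).Connected := by
  have : Finite X := hf
  have : Nontrivial X := Set.nontrivial_coe_sort.2 h2
  obtain ⟨q, hq⟩ := h.exists_connected_induce_compl_singleton_of_finite_nontrivial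
  refine ⟨q.1, q.2, ?_⟩
  let φ : (G.induce X).induce ({q}ᶜ : Set X) →g G.induce (X \ {q.1}) :=
    { toFun := fun y => ⟨y.1.1, y.1.2, fun h => y.2 (Subtype.ext h)⟩
      map_rel' := fun {a b} hab => hab }
  have hφ : Function.Surjective φ := by
    rintro ⟨y, hy, hyq⟩
    exact ⟨⟨⟨y, hy⟩, fun h => hyq (congrArg Subtype.val h)⟩, rfl⟩
  exact hq.map φ hφ

lemma adjS_split {X Y : Set V} (q : V) (h : AdjS G X Y) :
    AdjS G (X \ {q}) Y ∨ AdjS G {q} Y := by
  obtain ⟨x, hx, y, hy, hxy⟩ := h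
  by_cases hq : x = q
  · right; exact ⟨x, hq, y, hy, hxy⟩
  · left; exact ⟨x, ⟨hx, hq⟩, y, hy, hxy⟩

/-- A model of the triangle can be made smaller, unless there is a model of the 4-cycle. -/
lemma shrink [Finite V] {U X Y Z : Set V} (h : K3m G X Y Z) (hX : X ⊆ U) (hY : Y ⊆ U) (hZ : Z ⊆ U)
    (hno : ¬ HasC4 G U) (hnt : X.Nontrivial) :
    ∃ X' ⊆ X, X'.ncard < X.ncard ∧ K3m G X' Y Z := by
  obtain ⟨q, hq, hP⟩ := exists_noncut (Set.toFinite X) h.cX hnt
  have hPX : X \ {q} ⊆ X := Set.sdiff_subset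
  have hQX : ({q} : Set V) ⊆ X := Set.singleton_subset_iff.2 hq
  have hQP : AdjS G {q} (X \ {q}) := by
    obtain ⟨⟨y, hy, hyq⟩⟩ := hP.nonempty
    obtain ⟨a, b, ha, hb, hab⟩ := exists_boundary ({q} : Set V)
      (((conn_iff X).1 h.cX).2 q hq y hy) rfl hyq
    exact ⟨a, ha, b, ⟨hab.2.2, hb⟩, hab.1⟩
  have hdQP : Disjoint ({q} : Set V) (X \ {q}) := by
    rw [Set.disjoint_singleton_left]; simp
  have c1 : (X \ {q}).ncard < X.ncard := Set.ncard_sdiff_singleton_lt_of_mem hq (Set.toFinite _)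
  have c2 : ({q} : Set V).ncard < X.ncard := by
    rw [Set.ncard_singleton]
    exact Set.one_lt_ncard_iff_nontrivial.2 hnt
  by_cases hPY : AdjS G (X \ {q}) Y
  · by_cases hPZ : AdjS G (X \ {q}) Z
    · exact ⟨_, hPX, c1, hP, h.cY, h.cZ, h.dXY.mono_left hPX, h.dYZ, h.dZX.mono_right hPX, hPY,
        h.aYZ, hPZ.symm⟩
    · exfalso
      have hQZ := (adjS_split q h.aZX.symm).resolve_left hPZ
      exact hno ⟨{q}, Z, Y, X \ {q}, hQX.trans hX, hZ, hY, hPX.trans hX, conn_singleton q, h.cZ,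
        h.cY, hP, h.dZX.symm.mono_left hQX, h.dXY.mono_left hQX, hdQP, h.dYZ.symm,
        h.dZX.mono_right hPX, h.dXY.symm.mono_right hPX, hQZ, h.aYZ.symm, hPY.symm, hQP.symm⟩
  · have hQY := (adjS_split q h.aXY).resolve_left hPY
    by_cases hPZ : AdjS G (X \ {q}) Z
    · exfalso
      exact hno ⟨{q}, Y, Z, X \ {q}, hQX.trans hX, hY, hZ, hPX.trans hX, conn_singleton q, h.cY,
        h.cZ, hP, h.dXY.mono_left hQX, h.dZX.symm.mono_left hQX, hdQP, h.dYZ,
        h.dXY.symm.mono_right hPX, h.dZX.mono_right hPX, hQY, h.aYZ, hPZ.symm, hQP.symm⟩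
    · have hQZ := (adjS_split q h.aZX.symm).resolve_left hPZ
      exact ⟨_, hQX, c2, conn_singleton q, h.cY, h.cZ, h.dXY.mono_left hQX, h.dYZ,
        h.dZX.mono_right hQX, hQY, h.aYZ, hQZ.symm⟩

/-- a set with a model of the triangle but none of the 4-cycle contains a triangle -/
lemma exists_triangle [Finite V] {U : Set V} (h : HasK3 G U) (hno : ¬ HasC4 G U) :
    ∃ x ∈ U, ∃ y ∈ U, ∃ z ∈ U, G.Adj x y ∧ G.Adj y z ∧ G.Adj z x := by
  have key : ∀ n, ∀ X Y Z : Set V, X.ncard + Y.ncard + Z.ncard = n → X ⊆ U → Y ⊆ U → Z ⊆ U →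
      K3m G X Y Z → ∃ x ∈ U, ∃ y ∈ U, ∃ z ∈ U, G.Adj x y ∧ G.Adj y z ∧ G.Adj z x := by
    intro n
    induction n using Nat.strong_induction_on with
    | _ n ih =>
      intro X Y Z hn hX hY hZ h
      by_cases h1 : X.Nontrivial
      · obtain ⟨X', h2, h3, h4⟩ := shrink h hX hY hZ hno h1
        exact ih _ (by omega) X' Y Z rfl (h2.trans hX) hY hZ h4
      · by_cases h2 : Y.Nontrivial
        · obtain ⟨Y', h3, h4, h5⟩ := shrink h.rot hY hZ hX hno h2
          exact ih _ (by omega) Y' Z X rfl (h3.trans hY) hZ hX h5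
        · by_cases h3 : Z.Nontrivial
          · obtain ⟨Z', h4, h5, h6⟩ := shrink h.rot.rot hZ hX hY hno h3
            exact ih _ (by omega) Z' X Y rfl (h4.trans hZ) hX hY h6
          · rw [Set.not_nontrivial_iff] at h1 h2 h3
            obtain ⟨x, hx, y, hy, hxy⟩ := h.aXY
            obtain ⟨y', hy', z, hz, hyz⟩ := h.aYZ
            obtain ⟨z', hz', x', hx', hzx⟩ := h.aZX
            have e1 := h1 hx' hx
            have e2 := h2 hy' hy
            have e3 := h3 hz' hz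
            rw [e2] at hyz
            rw [e1, e3] at hzx
            exact ⟨x, hX hx, y, hY hy, z, hZ hz, hxy, hyz, hzx⟩
  obtain ⟨X, Y, Z, hX, hY, hZ, h⟩ := h
  exact key _ X Y Z rfl hX hY hZ h

/-- a triangle is a model of the triangle -/
lemma hasK3_of_triangle {x y z : V} (hxy : G.Adj x y) (hyz : G.Adj y z) (hzx : G.Adj z x) :
    HasK3 G {x, y, z} := by
  refine ⟨{x}, {y}, {z}, by simp, by simp, by simp, conn_singleton _, conn_singleton _,
    conn_singleton _, ?_, ?_, ?_, ⟨_, rfl, _, rfl, hxy⟩, ⟨_, rfl, _, rfl, hyz⟩,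
    ⟨_, rfl, _, rfl, hzx⟩⟩
  · rw [Set.disjoint_singleton]; exact hxy.ne
  · rw [Set.disjoint_singleton]; exact hyz.ne
  · rw [Set.disjoint_singleton]; exact hzx.ne

/-! ### Lifting from induced subgraphs -/

lemma conn_lift {S : Set V} {X : Set S} (h : ((G.induce S).induce X).Connected) :
    (G.induce (Subtype.val '' X)).Connected := by
  let φ : (G.induce S).induce X →g G.induce (Subtype.val '' X) :=
    { toFun := fun y => ⟨y.1.1, ⟨y.1, y.2, rfl⟩⟩
      map_rel' := fun {a b} hab => hab }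
  have hφ : Function.Surjective φ := by
    rintro ⟨_, y, hy, rfl⟩
    exact ⟨⟨y, hy⟩, rfl⟩
  exact h.map φ hφ

lemma disj_lift {S : Set V} {X Y : Set S} (h : Disjoint X Y) :
    Disjoint (Subtype.val '' X) (Subtype.val '' Y) :=
  (Set.disjoint_image_iff Subtype.val_injective).2 h

lemma adj_lift {S : Set V} {X Y : Set S} (h : AdjS (G.induce S) X Y) :
    AdjS G (Subtype.val '' X) (Subtype.val '' Y) := by
  obtain ⟨x, hx, y, hy, hxy⟩ := h
  exact ⟨x.1, ⟨x, hx, rfl⟩, y.1, ⟨y, hy, rfl⟩, hxy⟩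

lemma hasC4_lift {S : Set V} {U : Set S} (h : HasC4 (G.induce S) U) : HasC4 G S := by
  obtain ⟨A, B, C, D, -, -, -, -, h⟩ := h
  have hsub : ∀ X : Set S, (Subtype.val '' X : Set V) ⊆ S := by
    rintro X _ ⟨y, _, rfl⟩
    exact y.2
  exact ⟨_, _, _, _, hsub A, hsub B, hsub C, hsub D, conn_lift h.cA, conn_lift h.cB,
    conn_lift h.cC, conn_lift h.cD, disj_lift h.dAB, disj_lift h.dAC, disj_lift h.dAD,
    disj_lift h.dBC, disj_lift h.dBD, disj_lift h.dCD, adj_lift h.aAB, adj_lift h.aBC,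
    adj_lift h.aCD, adj_lift h.aDA⟩

/-- models of the triangle as functions -/
lemma hasK3_fun {U : Set V} (h : HasK3 G U) : ∃ f : Fin 3 → Set V, (∀ d, f d ⊆ U) ∧
    (∀ d, (G.induce (f d)).Connected) ∧ (∀ d e, d ≠ e → Disjoint (f d) (f e)) ∧
    ∀ d e, d ≠ e → AdjS G (f d) (f e) := by
  obtain ⟨X, Y, Z, hX, hY, hZ, h⟩ := h
  refine ⟨fun d => match d with
    | 0 => X
    | 1 => Y
    | 2 => Z, ?_, ?_, ?_, ?_⟩
  · intro d
    match d with
    | 0 => exact hX
    | 1 => exact hY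
    | 2 => exact hZ
  · intro d
    match d with
    | 0 => exact h.cX
    | 1 => exact h.cY
    | 2 => exact h.cZ
  · intro d e hde
    match d, e with
    | 0, 0 => exact absurd rfl hde
    | 0, 1 => exact h.dXY
    | 0, 2 => exact h.dZX.symm
    | 1, 0 => exact h.dXY.symm
    | 1, 1 => exact absurd rfl hde
    | 1, 2 => exact h.dYZ
    | 2, 0 => exact h.dZX
    | 2, 1 => exact h.dYZ.symm
    | 2, 2 => exact absurd rfl hde
  · intro d e hde
    match d, e with
    | 0, 0 => exact absurd rfl hde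
    | 0, 1 => exact h.aXY
    | 0, 2 => exact h.aZX.symm
    | 1, 0 => exact h.aXY.symm
    | 1, 1 => exact absurd rfl hde
    | 1, 2 => exact h.aYZ
    | 2, 0 => exact h.aZX
    | 2, 1 => exact h.aYZ.symm
    | 2, 2 => exact absurd rfl hde

end Pool.Agent.X57.SmallMinor
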