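import Mathlib
import Pool.Agent.X57.SubT

/-!
# Subtrees of generalised theta graphs (helper57)
-/

namespace Pool.Agent.X57.Theta

open SimpleGraph Finset

variable {ι : Type} {L : ι → ℕ}

/-- the vertices of the theta graph: two hubs, and `L j` inner vertices on the path number `j` -/
abbrev Vtx (L : ι → ℕ) := Bool ⊕ (Σ j : ι, Fin (L j))

/-- the first hub -/
abbrev hs (L : ι → ℕ) : Vtx L := Sum.inl false

/-- the second hub -/
abbrev ht (L : ι → ℕ) : Vtx L := Sum.inl true

/-- the vertex number `i` of the path number `j` -/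
def pos (L : ι → ℕ) (j : ι) (i : ℕ) : Vtx L :=
  if i = 0 then Sum.inl false
  else if h : i - 1 < L j then Sum.inr ⟨j, ⟨i - 1, h⟩⟩ else Sum.inl true

lemma pos_zero (j : ι) : pos L j 0 = hs L := by simp [pos]

lemma pos_last (j : ι) : pos L j (L j + 1) = ht L := by simp [pos]

lemma pos_mid {j : ι} {i : ℕ} (h1 : 1 ≤ i) (h2 : i ≤ L j) :
    pos L j i = Sum.inr ⟨j, ⟨i - 1, by omega⟩⟩ := by
  unfold pos
  rw [if_neg (by omega), dif_pos (by omega)]

lemma pos_ne_hub {j : ι} {i : ℕ} (h1 : 1 ≤ i) (h2 : i ≤ L j) (b : Bool) :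
    pos L j i ≠ Sum.inl b := by
  rw [pos_mid h1 h2]
  exact Sum.inr_ne_inl

lemma pos_inj {j j' : ι} {i i' : ℕ} (h1 : 1 ≤ i) (h2 : i ≤ L j) (h3 : i' ≤ L j' + 1)
    (h : pos L j i = pos L j' i') : j = j' ∧ i = i' := by
  rcases Nat.eq_zero_or_pos i' with h0 | h0
  · rw [h0, pos_zero] at h
    exact absurd h (pos_ne_hub h1 h2 _)
  · rcases Nat.lt_or_ge (L j') i' with h4 | h4
    · have : i' = L j' + 1 := by omega
      rw [this, pos_last] at h
      exact absurd h (pos_ne_hub h1 h2 _)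
    · rw [pos_mid h1 h2, pos_mid h0 h4] at h
      have h5 := Sum.inr.inj h
      obtain ⟨h6, h7⟩ := Sigma.mk.inj_iff.1 h5
      subst h6
      have h8 := congrArg Fin.val (eq_of_heq h7)
      simp only at h8
      exact ⟨rfl, by omega⟩

lemma hub_cases (x : Vtx L) : x = hs L ∨ x = ht L ∨ ∃ j i, 1 ≤ i ∧ i ≤ L j ∧ x = pos L j i := by
  rcases x with b | ⟨j, i⟩
  · cases b
    · exact Or.inl rfl
    · exact Or.inr (Or.inl rfl)
  · right; right
    refine ⟨j, i.val + 1, by omega, by have := i.isLt; omega, ?_⟩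
    rw [pos_mid (by omega) (by have := i.isLt; omega)]
    simp

lemma hs_ne_ht : hs L ≠ ht L := by simp

/-- `pos j i` is the first hub only for `i = 0` -/
lemma pos_eq_hs {j : ι} {i : ℕ} (h : i ≤ L j + 1) (he : pos L j i = hs L) : i = 0 := by
  by_contra h0
  rcases Nat.lt_or_ge (L j) i with h4 | h4
  · have : i = L j + 1 := by omega
    rw [this, pos_last] at he
    exact hs_ne_ht he.symm
  · exact pos_ne_hub (by omega) h4 _ he

lemma pos_eq_ht {j : ι} {i : ℕ} (h : i ≤ L j + 1) (he : pos L j i = ht L) : i = L j + 1 := by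
  by_contra h0
  rcases Nat.eq_zero_or_pos i with h4 | h4
  · rw [h4, pos_zero] at he
    exact hs_ne_ht he
  · exact pos_ne_hub h4 (by omega) _ he

/-- consecutive vertices -/
def Cons (L : ι → ℕ) (j : ι) (i : ℕ) (x y : Vtx L) : Prop :=
  (x = pos L j i ∧ y = pos L j (i + 1)) ∨ (x = pos L j (i + 1) ∧ y = pos L j i)

lemma Cons.symm {j : ι} {i : ℕ} {x y : Vtx L} (h : Cons L j i x y) : Cons L j i y x := by
  rcases h with ⟨h1, h2⟩ | ⟨h1, h2⟩
  · exact Or.inr ⟨h2, h1⟩
  · exact Or.inl ⟨h2, h1⟩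

/-- the theta graph -/
def theta (L : ι → ℕ) : SimpleGraph (Vtx L) where
  Adj x y := ∃ j i, i ≤ L j ∧ Cons L j i x y
  symm := ⟨fun _ _ ⟨j, i, h, h'⟩ => ⟨j, i, h, h'.symm⟩⟩
  loopless := ⟨by
    rintro x ⟨j, i, h, h' | h'⟩ <;>
    · obtain ⟨h1, h2⟩ := h'
      rw [h1] at h2
      rcases Nat.eq_zero_or_pos i with h0 | h0
      · subst h0
        first
        | (have := pos_eq_hs (j := j) (i := 0 + 1) (by omega) (by rw [← h2, pos_zero]); omega)
        | (have := pos_eq_hs (j := j) (i := 0 + 1) (by omega) (by rw [h2, pos_zero]); omega)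
      · first
        | (have := (pos_inj h0 h (by omega) h2).2; omega)
        | (have := (pos_inj h0 h (by omega) h2.symm).2; omega)⟩

/-- an edge belongs to one path, and has one position there -/
lemma cons_unique (hL : ∀ j, 1 ≤ L j) {j j' : ι} {i i' : ℕ} {x y : Vtx L} (hi : i ≤ L j)
    (hi' : i' ≤ L j') (h : Cons L j i x y) (h' : Cons L j' i' x y) : j = j' ∧ i = i' := by
  have key : ∀ {j j' : ι} {i i' : ℕ}, i ≤ L j → i' ≤ L j' →
      pos L j i = pos L j' i' → pos L j (i + 1) = pos L j' (i' + 1) → j = j' ∧ i = i' := by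
    intro j j' i i' hi hi' h1 h2
    rcases Nat.eq_zero_or_pos i with h0 | h0
    · subst h0
      have := hL j
      obtain ⟨h3, h4⟩ := pos_inj (by omega) this (by omega) h2
      exact ⟨h3, by omega⟩
    · exact pos_inj h0 hi (by omega) h1
  have key2 : ∀ {j j' : ι} {i i' : ℕ}, i ≤ L j → i' ≤ L j' →
      pos L j i = pos L j' (i' + 1) → pos L j (i + 1) = pos L j' i' → False := by
    intro j j' i i' hi hi' h1 h2
    rcases Nat.eq_zero_or_pos i with h0 | h0
    · subst h0
      rw [pos_zero] at h1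
      have := pos_eq_hs (by omega) h1.symm
      omega
    · obtain ⟨h3, h4⟩ := pos_inj h0 hi (by omega) h1
      subst h3
      rcases Nat.lt_or_ge i (L j) with h5 | h5
      · obtain ⟨-, h6⟩ := pos_inj (by omega) (by omega) (by omega) h2
        omega
      · have h7 : i = L j := by omega
        rw [h7, pos_last] at h2
        have := pos_eq_ht (by omega) h2.symm
        omega
  rcases h with ⟨h1, h2⟩ | ⟨h1, h2⟩ <;> rcases h' with ⟨h3, h4⟩ | ⟨h3, h4⟩
  · exact key hi hi' (h1.symm.trans h3) (h2.symm.trans h4)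
  · exact (key2 hi hi' (h1.symm.trans h3) (h2.symm.trans h4)).elim
  · exact (key2 hi' hi (h3.symm.trans h1) (h4.symm.trans h2)).elim
  · exact key hi hi' (h2.symm.trans h4) (h1.symm.trans h3)

/-- the edge number `i` of the path number `j` is present -/
def Pr (T : (theta L).Subgraph) (j : ι) (i : ℕ) : Prop := T.Adj (pos L j i) (pos L j (i + 1))

lemma exists_pr {T : (theta L).Subgraph} {x y : Vtx L} (h : T.Adj x y) :
    ∃ j i, i ≤ L j ∧ Cons L j i x y ∧ Pr T j i := by
  obtain ⟨j, i, h1, h2⟩ := T.adj_sub h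
  refine ⟨j, i, h1, h2, ?_⟩
  rcases h2 with ⟨h3, h4⟩ | ⟨h3, h4⟩
  · subst h3; subst h4; exact h
  · subst h3; subst h4; exact h.symm

lemma adj_of_pr {T : (theta L).Subgraph} {x y : Vtx L} {j : ι} {i : ℕ} (h : Cons L j i x y)
    (hp : Pr T j i) : T.Adj x y := by
  rcases h with ⟨h3, h4⟩ | ⟨h3, h4⟩
  · subst h3; subst h4; exact hp
  · subst h3; subst h4; exact (show T.Adj _ _ from hp).symm

/-- connectedness of a subgraph -/
def SConn (T : (theta L).Subgraph) : Prop :=
  ∀ x ∈ T.verts, ∀ y ∈ T.verts, T.spanningCoe.Reachable x y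

/-- the missing edges of a path form an interval -/
lemma interval {T : (theta L).Subgraph} (hT : SConn T) {b : Bool} (hb : Sum.inl b ∈ T.verts)
    {j : ι} {i1 i i2 : ℕ} (h1 : i1 < i) (h2 : i < i2) (h3 : i2 ≤ L j) (hp : Pr T j i) :
    Pr T j i1 ∨ Pr T j i2 := by
  set C : Set (Vtx L) := {x | ∃ m, i1 < m ∧ m ≤ i2 ∧ x = pos L j m} with hC
  have hbC : (Sum.inl b : Vtx L) ∉ C := by
    rintro ⟨m, h4, h5, h6⟩
    exact pos_ne_hub (by omega) (by omega) b h6.symm
  obtain ⟨x, y, hx, hy, hxy⟩ := exists_boundary C (hT _ (T.edge_vert hp) _ hb)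
    ⟨i, h1, h2.le, rfl⟩ hbC
  obtain ⟨m, h4, h5, h6⟩ := hx
  obtain ⟨j', i', h7, h8, h9⟩ := exists_pr (show T.Adj x y from hxy)
  rcases h8 with ⟨h10, h11⟩ | ⟨h10, h11⟩
  · obtain ⟨h12, h13⟩ := pos_inj (by omega) (by omega) (by omega) (h6.symm.trans h10)
    subst h12; subst h13
    right
    have : ¬ m + 1 ≤ i2 := fun h => hy ⟨m + 1, by omega, h, h11⟩
    have : m = i2 := by omega
    rw [← this]
    exact h9
  · obtain ⟨h12, h13⟩ := pos_inj (by omega) (by omega) (by omega) (h6.symm.trans h10)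
    subst h12
    left
    have : ¬ i1 < i' := fun h => hy ⟨i', h, by omega, h11⟩
    have : i' = i1 := by omega
    rw [← this]
    exact h9

/-- membership of inner vertices -/
lemma mem_iff {T : (theta L).Subgraph} (hT : SConn T) {b : Bool} (hb : Sum.inl b ∈ T.verts)
    {j : ι} {i : ℕ} (h1 : 1 ≤ i) (h2 : i ≤ L j) :
    pos L j i ∈ T.verts ↔ Pr T j (i - 1) ∨ Pr T j i := by
  constructor
  · intro h
    obtain ⟨x, y, hx, hy, hxy⟩ := exists_boundary ({pos L j i} : Set (Vtx L)) (hT _ h _ hb) rfl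
      (fun h => pos_ne_hub h1 h2 b (Set.mem_singleton_iff.1 h).symm)
    rw [Set.mem_singleton_iff] at hx
    subst hx
    obtain ⟨j', i', h7, h8, h9⟩ := exists_pr (show T.Adj _ y from hxy)
    rcases h8 with ⟨h10, h11⟩ | ⟨h10, h11⟩
    · obtain ⟨h12, h13⟩ := pos_inj h1 h2 (by omega) h10
      subst h12; subst h13
      exact Or.inr h9
    · obtain ⟨h12, h13⟩ := pos_inj h1 h2 (by omega) h10
      subst h12; subst h13
      left
      simpa using h9
  · rintro (h | h)
    · have := T.edge_vert (show T.Adj _ _ from h).symm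
      rwa [Nat.sub_add_cancel h1] at this
    · exact T.edge_vert h

/-- some path is full -/
lemma exists_full {T : (theta L).Subgraph} (hT : SConn T) (h0 : hs L ∈ T.verts)
    (h1 : ht L ∈ T.verts) : ∃ j, ∀ i ≤ L j, Pr T j i := by
  by_contra hcon
  push Not at hcon
  choose m hm hmp using hcon
  set C : Set (Vtx L) := {x | x = hs L ∨ ∃ j i, i ≤ m j ∧ x = pos L j i} with hC
  have htC : ht L ∉ C := by
    rintro (h | ⟨j, i, h2, h3⟩)
    · exact hs_ne_ht h.symm
    · have := pos_eq_ht (by have := hm j; omega) h3.symm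
      have := hm j
      omega
  obtain ⟨x, y, hx, hy, hxy⟩ := exists_boundary C (hT _ h0 _ h1) (Or.inl rfl) htC
  obtain ⟨j', i', h7, h8, h9⟩ := exists_pr (show T.Adj x y from hxy)
  have hm' := hm j'
  rcases h8 with ⟨h10, h11⟩ | ⟨h10, h11⟩
  · have h12 : ¬ i' + 1 ≤ m j' := fun h => hy (Or.inr ⟨j', i' + 1, h, h11⟩)
    have h13 : i' ≠ m j' := fun h => hmp j' (h ▸ h9)
    rcases hx with hx | ⟨j, i, h14, h15⟩
    · have := pos_eq_hs (by omega) (h10.symm.trans hx)
      omega
    · rcases Nat.eq_zero_or_pos i with h16 | h16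
      · rw [h16, pos_zero] at h15
        have := pos_eq_hs (by omega) (h10.symm.trans h15)
        omega
      · obtain ⟨h17, h18⟩ := pos_inj h16 (h14.trans (hm j)) (by omega) (h15.symm.trans h10)
        subst h17
        omega
  · have h12 : ¬ i' ≤ m j' := fun h => hy (Or.inr ⟨j', i', h, h11⟩)
    rcases hx with hx | ⟨j, i, h14, h15⟩
    · have := pos_eq_hs (by omega) (h10.symm.trans hx)
      omega
    · rcases Nat.eq_zero_or_pos i with h16 | h16
      · rw [h16, pos_zero] at h15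
        have := pos_eq_hs (by omega) (h10.symm.trans h15)
        omega
      · obtain ⟨h17, h18⟩ := pos_inj h16 (h14.trans (hm j)) (by omega) (h15.symm.trans h10)
        subst h17
        omega

/-- walking along a path -/
lemma reach_up {R : SimpleGraph (Vtx L)} {j : ι} {a : ℕ} : ∀ b, a ≤ b →
    (∀ i, a ≤ i → i < b → R.Adj (pos L j i) (pos L j (i + 1))) →
    R.Reachable (pos L j a) (pos L j b) := by
  intro b
  induction b with
  | zero =>
    intro h _
    have : a = 0 := by omega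
    subst this
    exact Reachable.refl _
  | succ b ih =>
    intro h hall
    rcases Nat.lt_or_ge b a with h1 | h1
    · have : a = b + 1 := by omega
      subst this
      exact Reachable.refl _
    · exact (ih h1 (fun i h2 h3 => hall i h2 (by omega))).trans
        (hall b h1 (by omega)).reachable

/-- at most one path is full -/
lemma full_unique (hL : ∀ j, 1 ≤ L j) {T : (theta L).Subgraph} (hT : T.spanningCoe.IsAcyclic)
    {j1 j2 : ι} (h1 : ∀ i ≤ L j1, Pr T j1 i) (h2 : ∀ i ≤ L j2, Pr T j2 i) : j1 = j2 := by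
  by_contra hne
  have hb := (isAcyclic_iff_forall_adj_isBridge.1 hT)
    (show T.spanningCoe.Adj (pos L j1 0) (pos L j1 1) from h1 0 (Nat.zero_le _))
  rw [isBridge_iff] at hb
  apply hb
  have hadj : ∀ j i, i ≤ L j → Pr T j i → ¬ (j = j1 ∧ i = 0) →
      (T.spanningCoe.deleteEdges {s(pos L j1 0, pos L j1 1)}).Adj (pos L j i) (pos L j (i + 1)) := by
    intro j i hi hp hne'
    rw [deleteEdges_adj]
    refine ⟨hp, fun h => hne' ?_⟩
    rw [Set.mem_singleton_iff, Sym2.eq_iff] at h
    have h3 : Cons L j1 0 (pos L j i) (pos L j (i + 1)) := by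
      rcases h with h | h
      · exact Or.inl h
      · exact Or.inr h
    exact cons_unique hL hi (Nat.zero_le _) (Or.inl ⟨rfl, rfl⟩) h3
  have r1 : (T.spanningCoe.deleteEdges {s(pos L j1 0, pos L j1 1)}).Reachable (pos L j2 0)
      (pos L j2 (L j2 + 1)) := reach_up _ (Nat.zero_le _) (fun i _ h3 => hadj j2 i (by omega)
        (h2 i (by omega)) (fun h => hne h.1.symm))
  have r2 : (T.spanningCoe.deleteEdges {s(pos L j1 0, pos L j1 1)}).Reachable (pos L j1 1)
      (pos L j1 (L j1 + 1)) := reach_up _ (by omega) (fun i h4 h3 => hadj j1 i (by omega)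
        (h1 i (by omega)) (fun h => by omega))
  rw [pos_zero, pos_last] at r1
  rw [pos_last] at r2
  rw [pos_zero]
  exact r1.trans r2.symm

end Pool.Agent.X57.Theta
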