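import Mathlib
import Pool.Agent.X57.Theta

/-!
# Subtrees of generalised theta graphs: codes (helper57)
-/

namespace Pool.Agent.X57.Theta

open SimpleGraph Finset

variable {ι : Type} [Fintype ι] [DecidableEq ι] {L : ι → ℕ}

open scoped Classical in
/-- the missing edges of the path number `j` -/
noncomputable def code (T : (theta L).Subgraph) (j : ι) : Finset ℕ :=
  (range (L j + 1)).filter (fun i => ¬ Pr T j i)

omit [Fintype ι] [DecidableEq ι] in
lemma mem_code {T : (theta L).Subgraph} {j : ι} {i : ℕ} : i ∈ code T j ↔ i ≤ L j ∧ ¬ Pr T j i := by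
  classical
  simp only [code, mem_filter, mem_range, Nat.lt_succ_iff]

omit [Fintype ι] [DecidableEq ι] in
lemma pr_iff {T : (theta L).Subgraph} {j : ι} {i : ℕ} (hi : i ≤ L j) :
    Pr T j i ↔ i ∉ code T j := by
  rw [mem_code]
  tauto

/-- the nonempty intervals of `{0, ..., n - 1}` -/
def II (n : ℕ) : Finset (Finset ℕ) :=
  ((range (n + 1) ×ˢ range (n + 1)).filter (fun p => p.1 < p.2)).image (fun p => Ico p.1 p.2)

omit [Fintype ι] [DecidableEq ι] in
lemma mem_II {n : ℕ} {M : Finset ℕ} : M ∈ II n ↔ ∃ a b, a < b ∧ b ≤ n ∧ M = Ico a b := by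
  simp only [II, mem_image, mem_filter, mem_product, mem_range, Prod.exists]
  constructor
  · rintro ⟨a, b, ⟨⟨h1, h2⟩, h3⟩, h4⟩
    exact ⟨a, b, h3, by omega, h4.symm⟩
  · rintro ⟨a, b, h1, h2, h3⟩
    exact ⟨a, b, ⟨⟨by omega, by omega⟩, h1⟩, h3.symm⟩

lemma ico_inj {a b a' b' : ℕ} (h : a < b) (h' : a' < b') (he : Ico a b = Ico a' b') :
    a = a' ∧ b = b' := by
  have h1 : a ∈ Ico a' b' := by rw [← he, mem_Ico]; omega
  have h2 : a' ∈ Ico a b := by rw [he, mem_Ico]; omega
  have h3 : b - 1 ∈ Ico a' b' := by rw [← he, mem_Ico]; omega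
  have h4 : b' - 1 ∈ Ico a b := by rw [he, mem_Ico]; omega
  rw [mem_Ico] at h1 h2 h3 h4
  omega

lemma sum_II {β : Type} [AddCommMonoid β] (n : ℕ) (f : Finset ℕ → β) :
    ∑ M ∈ II n, f M =
      ∑ p ∈ (range (n + 1) ×ˢ range (n + 1)).filter (fun p => p.1 < p.2), f (Ico p.1 p.2) := by
  unfold II
  rw [sum_image]
  rintro ⟨a, b⟩ h ⟨a', b'⟩ h' he
  simp only [coe_filter, mem_product, mem_range, Set.mem_ofPred_eq] at h h'
  obtain ⟨h1, h2⟩ := ico_inj h.2 h'.2 he
  rw [h1, h2]

lemma empty_notMem_II (n : ℕ) : ∅ ∉ II n := by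
  rw [mem_II]
  rintro ⟨a, b, h1, -, h3⟩
  have : a ∈ (∅ : Finset ℕ) := by rw [h3, mem_Ico]; omega
  exact notMem_empty _ this

/-- a nonempty convex set is an interval -/
lemma mem_II_of_convex {n : ℕ} {M : Finset ℕ} (hM : ∀ i ∈ M, i < n) (hne : M.Nonempty)
    (hc : ∀ x ∈ M, ∀ z ∈ M, ∀ y, x < y → y < z → y ∈ M) : M ∈ II n := by
  rw [mem_II]
  refine ⟨M.min' hne, M.max' hne + 1, ?_, hM _ (M.max'_mem hne), ?_⟩
  · have := M.min'_le _ (M.max'_mem hne)
    omega
  · ext y
    rw [mem_Ico]
    constructor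
    · intro hy
      exact ⟨M.min'_le _ hy, by have := M.le_max' _ hy; omega⟩
    · rintro ⟨h1, h2⟩
      rcases Nat.eq_or_lt_of_le h1 with h3 | h3
      · rw [← h3]; exact M.min'_mem hne
      · rcases Nat.eq_or_lt_of_le (Nat.lt_succ_iff.1 h2) with h4 | h4
        · rw [h4]; exact M.max'_mem hne
        · exact hc _ (M.min'_mem hne) _ (M.max'_mem hne) _ h3 h4

omit [Fintype ι] [DecidableEq ι] in
lemma code_mem {T : (theta L).Subgraph} (hT : SConn T) {b : Bool} (hb : Sum.inl b ∈ T.verts)
    {j : ι} (hne : (code T j).Nonempty) : code T j ∈ II (L j + 1) := by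
  apply mem_II_of_convex _ hne
  · intro x hx z hz y hxy hyz
    rw [mem_code] at hx hz ⊢
    refine ⟨by omega, fun hp => ?_⟩
    rcases interval hT hb hxy hyz hz.1 hp with h | h
    · exact hx.2 h
    · exact hz.2 h
  · intro i hi
    rw [mem_code] at hi
    omega

/-- the codes of the subtrees containing both hubs, the path number `j0` being full -/
def SS (L : ι → ℕ) (j0 : ι) : Finset (ι → Finset ℕ) :=
  Fintype.piFinset (fun j => if j = j0 then {∅} else II (L j + 1))

lemma mem_SS {j0 : ι} {M : ι → Finset ℕ} :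
    M ∈ SS L j0 ↔ M j0 = ∅ ∧ ∀ j, j ≠ j0 → M j ∈ II (L j + 1) := by
  unfold SS
  rw [Fintype.mem_piFinset]
  constructor
  · intro h
    refine ⟨by simpa using h j0, fun j hj => ?_⟩
    have := h j
    rwa [if_neg hj] at this
  · rintro ⟨h1, h2⟩ j
    by_cases hj : j = j0
    · rw [if_pos hj, hj, h1]; exact mem_singleton_self _
    · rw [if_neg hj]; exact h2 j hj

lemma code_mem_SS (hL : ∀ j, 1 ≤ L j) {T : (theta L).Subgraph} (hT : SConn T)
    (ha : T.spanningCoe.IsAcyclic) (h0 : hs L ∈ T.verts) (h1 : ht L ∈ T.verts) :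
    ∃ j0, code T ∈ SS L j0 := by
  obtain ⟨j0, hj0⟩ := exists_full hT h0 h1
  refine ⟨j0, ?_⟩
  rw [mem_SS]
  constructor
  · rw [eq_empty_iff_forall_notMem]
    intro i hi
    rw [mem_code] at hi
    exact hi.2 (hj0 i hi.1)
  · intro j hj
    apply code_mem hT h0
    by_contra hcon
    rw [not_nonempty_iff_eq_empty] at hcon
    apply hj
    apply full_unique hL ha _ hj0
    intro i hi
    rw [pr_iff hi, hcon]
    exact notMem_empty _

/-- the subgraph with given sets of missing edges -/
def build (L : ι → ℕ) (M : ι → Finset ℕ) : (theta L).Subgraph where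
  verts := {x | x = hs L ∨ x = ht L ∨
    ∃ j i, 1 ≤ i ∧ i ≤ L j ∧ x = pos L j i ∧ (i - 1 ∉ M j ∨ i ∉ M j)}
  Adj x y := ∃ j i, i ≤ L j ∧ i ∉ M j ∧ Cons L j i x y
  adj_sub := by
    rintro x y ⟨j, i, h1, -, h2⟩
    exact ⟨j, i, h1, h2⟩
  edge_vert := by
    rintro x y ⟨j, i, h1, h2, h3⟩
    rcases h3 with ⟨h3, -⟩ | ⟨h3, -⟩
    · rcases Nat.eq_zero_or_pos i with h0 | h0
      · left; rw [h3, h0, pos_zero]
      · right; right; exact ⟨j, i, h0, h1, h3, Or.inr h2⟩
    · rcases Nat.eq_or_lt_of_le h1 with h0 | h0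
      · right; left; rw [h3, h0, pos_last]
      · right; right
        refine ⟨j, i + 1, by omega, by omega, h3, Or.inl ?_⟩
        simpa using h2
  symm := ⟨fun x y ⟨j, i, h1, h2, h3⟩ => ⟨j, i, h1, h2, h3.symm⟩⟩

omit [Fintype ι] [DecidableEq ι] in
lemma build_code {T : (theta L).Subgraph} (hT : SConn T) (h0 : hs L ∈ T.verts)
    (h1 : ht L ∈ T.verts) : build L (code T) = T := by
  apply Subgraph.ext
  · ext x
    constructor
    · rintro (h | h | ⟨j, i, h2, h3, h4, h5⟩)
      · rw [h]; exact h0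
      · rw [h]; exact h1
      · rw [h4, mem_iff hT h0 h2 h3, pr_iff (by omega), pr_iff h3]
        exact h5
    · intro hx
      rcases hub_cases x with h | h | ⟨j, i, h2, h3, h4⟩
      · exact Or.inl h
      · exact Or.inr (Or.inl h)
      · right; right
        refine ⟨j, i, h2, h3, h4, ?_⟩
        rw [h4, mem_iff hT h0 h2 h3, pr_iff (by omega), pr_iff h3] at hx
        exact hx
  · ext x y
    constructor
    · rintro ⟨j, i, h2, h3, h4⟩
      exact adj_of_pr h4 ((pr_iff h2).2 h3)
    · intro h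
      obtain ⟨j, i, h2, h3, h4⟩ := exists_pr h
      exact ⟨j, i, h2, (pr_iff h2).1 h4, h3⟩

omit [Fintype ι] [DecidableEq ι] in
lemma pr_build (hL : ∀ j, 1 ≤ L j) {M : ι → Finset ℕ} {j : ι} {i : ℕ} (hi : i ≤ L j) :
    Pr (build L M) j i ↔ i ∉ M j := by
  constructor
  · rintro ⟨j', i', h1, h2, h3⟩
    obtain ⟨h4, h5⟩ := cons_unique hL hi h1 (Or.inl ⟨rfl, rfl⟩) h3
    subst h4; subst h5
    exact h2
  · intro h
    exact ⟨j, i, hi, h, Or.inl ⟨rfl, rfl⟩⟩

omit [Fintype ι] [DecidableEq ι] in
lemma code_build (hL : ∀ j, 1 ≤ L j) {M : ι → Finset ℕ} (hM : ∀ j, ∀ i ∈ M j, i ≤ L j) :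
    code (build L M) = M := by
  funext j
  ext i
  rw [mem_code]
  constructor
  · rintro ⟨h1, h2⟩
    rw [pr_build hL h1] at h2
    exact not_not.1 h2
  · intro h
    refine ⟨hM j i h, ?_⟩
    rw [pr_build hL (hM j i h)]
    exact not_not.2 h

lemma SS_le {j0 : ι} {M : ι → Finset ℕ} (hM : M ∈ SS L j0) : ∀ j, ∀ i ∈ M j, i ≤ L j := by
  rw [mem_SS] at hM
  intro j i hi
  by_cases hj : j = j0
  · subst hj
    rw [hM.1] at hi
    exact absurd hi (notMem_empty _)
  · obtain ⟨a, b, h1, h2, h3⟩ := mem_II.1 (hM.2 j hj)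
    rw [h3, mem_Ico] at hi
    omega

/-- endpoints of the intervals of missing edges -/
lemma SS_ends {j0 : ι} {M : ι → Finset ℕ} (hM : M ∈ SS L j0) :
    ∃ a b : ι → ℕ, (∀ j, M j = Ico (a j) (b j)) ∧ a j0 = L j0 + 1 ∧ b j0 = L j0 + 1 ∧
      (∀ j, j ≠ j0 → a j < b j ∧ b j ≤ L j + 1) := by
  rw [mem_SS] at hM
  have : ∀ j, ∃ a b, M j = Ico a b ∧ (j = j0 → a = L j + 1 ∧ b = L j + 1) ∧
      (j ≠ j0 → a < b ∧ b ≤ L j + 1) := by
    intro j
    by_cases hj : j = j0
    · refine ⟨L j + 1, L j + 1, ?_, fun _ => ⟨rfl, rfl⟩, fun h => absurd hj h⟩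
      rw [hj, hM.1]; simp
    · obtain ⟨a, b, h1, h2, h3⟩ := mem_II.1 (hM.2 j hj)
      exact ⟨a, b, h3, fun h => absurd h hj, fun _ => ⟨h1, h2⟩⟩
  choose a b h using this
  exact ⟨a, b, fun j => (h j).1, ((h j0).2.1 rfl).1, ((h j0).2.1 rfl).2, fun j hj => (h j).2.2 hj⟩

/-- walking down a path -/
lemma build_isTree (hL : ∀ j, 1 ≤ L j) {j0 : ι} {M : ι → Finset ℕ} (hM : M ∈ SS L j0) :
    (build L M).coe.IsTree := by
  obtain ⟨a, b, hab, ha0, hb0, hlt⟩ := SS_ends hM
  have hle : ∀ j, a j ≤ b j ∧ b j ≤ L j + 1 := by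
    intro j
    by_cases hj : j = j0
    · subst hj; omega
    · have := hlt j hj; omega
  have hpr : ∀ j i, i ≤ L j → ((i < a j ∨ b j ≤ i) ↔ i ∉ M j) := by
    intro j i _
    rw [hab j, mem_Ico]
    omega
  have hadj : ∀ j i, i ≤ L j → (i < a j ∨ b j ≤ i) →
      (build L M).spanningCoe.Adj (pos L j i) (pos L j (i + 1)) := by
    intro j i h1 h2
    exact (pr_build hL h1).2 ((hpr j i h1).1 h2)
  rw [tree_iff]
  refine ⟨⟨hs L, Or.inl rfl⟩, ?_, ?_⟩
  · have rt : (build L M).spanningCoe.Reachable (hs L) (ht L) := by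
      have := reach_up (R := (build L M).spanningCoe) (j := j0) (a := 0) (L j0 + 1) (by omega)
        (fun i _ h => hadj j0 i (by omega) (by omega))
      rwa [pos_zero, pos_last] at this
    have key : ∀ x ∈ (build L M).verts, (build L M).spanningCoe.Reachable (hs L) x := by
      rintro x (h | h | ⟨j, i, h1, h2, h3, h4⟩)
      · rw [h]
      · rw [h]; exact rt
      · subst h3
        by_cases hia : i ≤ a j
        · have := reach_up (R := (build L M).spanningCoe) (j := j) (a := 0) i (by omega)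
            (fun i' _ h => hadj j i' (by omega) (by omega))
          rwa [pos_zero] at this
        · have hib : b j ≤ i := by
            rcases h4 with h4 | h4
            · rw [← hpr j (i - 1) (by omega)] at h4; omega
            · rw [← hpr j i h2] at h4; omega
          have := reach_up (R := (build L M).spanningCoe) (j := j) (a := i) (L j + 1) (by omega)
            (fun i' _ h => hadj j i' (by omega) (by omega))
          rw [pos_last] at this
          exact rt.trans this.symm
    intro x hx y hy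
    exact (key x hx).symm.trans (key y hy)
  · -- heights
    set H := L j0 + 1 with hH
    let h : Vtx L → ℕ := fun x => match x with
      | Sum.inl false => 0
      | Sum.inl true => H
      | Sum.inr ⟨j, i⟩ => if i.val + 1 ≤ a j then i.val + 1 else H + (L j - i.val)
    have hpos : ∀ j i, i ≤ L j + 1 → h (pos L j i) = if i ≤ a j then i else H + (L j + 1 - i) := by
      intro j i hi
      rcases Nat.eq_zero_or_pos i with h0 | h0
      · subst h0
        rw [pos_zero, if_pos (Nat.zero_le _)]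
      · rcases Nat.lt_or_ge (L j) i with h4 | h4
        · have hiL : i = L j + 1 := by omega
          rw [hiL, pos_last]
          change H = _
          by_cases hj : j = j0
          · subst hj
            rw [if_pos (by omega)]
          · have := hlt j hj
            rw [if_neg (by omega)]
            omega
        · rw [pos_mid h0 h4]
          change (if i - 1 + 1 ≤ a j then i - 1 + 1 else H + (L j - (i - 1))) = _
          rw [Nat.sub_add_cancel h0]
          split_ifs
          · rfl
          · omega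
    -- lower neighbours
    have low : ∀ v u, (build L M).spanningCoe.Adj v u → h u < h v →
        (∃ j i, i < a j ∧ i ≤ L j ∧ v = pos L j (i + 1) ∧ u = pos L j i) ∨
        (∃ j i, j ≠ j0 ∧ b j ≤ i ∧ i ≤ L j ∧ v = pos L j i ∧ u = pos L j (i + 1)) := by
      rintro v u ⟨j, i, h1, h2, h3⟩ hlow
      rw [← hpr j i h1] at h2
      have p1 := hpos j i (by omega)
      have p2 := hpos j (i + 1) (by omega)
      rcases h2 with h2 | h2
      · rw [if_pos (by omega)] at p1 p2
        rcases h3 with ⟨h3, h4⟩ | ⟨h3, h4⟩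
        · rw [h3, h4, p1, p2] at hlow
          omega
        · exact Or.inl ⟨j, i, h2, h1, h3, h4⟩
      · have hj : j ≠ j0 := by
          rintro rfl
          omega
        have hj' := hlt j hj
        rw [if_neg (by omega)] at p1 p2
        rcases h3 with ⟨h3, h4⟩ | ⟨h3, h4⟩
        · exact Or.inr ⟨j, i, hj, h2, h1, h3, h4⟩
        · rw [h3, h4, p1, p2] at hlow
          omega
    apply acyclic_of_height _ h
    · rintro u v ⟨j, i, h1, h2, h3⟩ heq
      rw [← hpr j i h1] at h2
      have p1 := hpos j i (by omega)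
      have p2 := hpos j (i + 1) (by omega)
      have heq' : h (pos L j i) = h (pos L j (i + 1)) := by
        rcases h3 with ⟨h3, h4⟩ | ⟨h3, h4⟩
        · rw [← h3, ← h4]; exact heq
        · rw [← h3, ← h4]; exact heq.symm
      rw [p1, p2] at heq'
      rcases h2 with h2 | h2
      · rw [if_pos (by omega), if_pos (by omega)] at heq'
        omega
      · have hj : j ≠ j0 := by
          rintro rfl
          omega
        have hj' := hlt j hj
        rw [if_neg (by omega), if_neg (by omega)] at heq'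
        omega
    · intro v u w hvu hvw hlu hlw
      have tip : ∀ j i, i < a j → i ≤ L j → ∀ j' i', i' < a j' → i' ≤ L j' →
          pos L j (i + 1) = pos L j' (i' + 1) → j = j' ∧ i = i' := by
        intro j i h1 h2 j' i' h1' h2' he
        rcases Nat.eq_or_lt_of_le h2 with h5 | h5
        · have e1 : j = j0 := by
            by_contra hj
            have := hlt j hj
            omega
          rw [h5, pos_last] at he
          have := pos_eq_ht (by omega) he.symm
          have e2 : j' = j0 := by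
            by_contra hj
            have := hlt j' hj
            omega
          refine ⟨e1.trans e2.symm, ?_⟩
          rw [e1] at h5
          rw [e2] at this
          omega
        · obtain ⟨e1, e2⟩ := pos_inj (by omega) (by omega) (by omega) he
          exact ⟨e1, by omega⟩
      rcases low v u hvu hlu with ⟨j, i, h1, h2, h3, h4⟩ | ⟨j, i, h0, h1, h2, h3, h4⟩ <;>
      rcases low v w hvw hlw with ⟨j', i', h1', h2', h3', h4'⟩ | ⟨j', i', h0', h1', h2', h3', h4'⟩
      · obtain ⟨e1, e2⟩ := tip j i h1 h2 j' i' h1' h2' (h3.symm.trans h3')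
        subst e1; subst e2
        rw [h4, h4']
      · have := hlt j' h0'
        obtain ⟨e1, e2⟩ := pos_inj (by omega) h2' (by omega) (h3'.symm.trans h3)
        subst e1
        omega
      · have := hlt j h0
        obtain ⟨e1, e2⟩ := pos_inj (by omega) h2 (by omega) (h3.symm.trans h3')
        subst e1
        omega
      · have := hlt j h0
        obtain ⟨e1, e2⟩ := pos_inj (by omega) h2 (by omega) (h3.symm.trans h3')
        subst e1; subst e2
        rw [h4, h4']

end Pool.Agent.X57.Theta
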