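import Mathlib
import Pool.Agent.X57.Theta2

/-!
# Subtrees of generalised theta graphs: counting (helper57)
-/

namespace Pool.Agent.X57.Theta

open SimpleGraph Finset

variable {ι : Type} [Fintype ι] [DecidableEq ι] {L : ι → ℕ}

/-- the number of vertices of `build L M` -/
lemma card_build {j0 : ι} {M : ι → Finset ℕ} (hM : M ∈ SS L j0) :
    (build L M).verts.ncard = 2 + ∑ j, (L j - ((M j).card - 1)) := by
  classical
  obtain ⟨a, b, hab, ha0, hb0, hlt⟩ := SS_ends hM
  have hle : ∀ j, a j ≤ b j ∧ b j ≤ L j + 1 := by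
    intro j
    by_cases hj : j = j0
    · subst hj; omega
    · have := hlt j hj; omega
  set X : Finset (Σ _ : ι, ℕ) := Finset.univ.sigma (fun j => Icc 1 (L j) \ Ioo (a j) (b j)) with hX
  have hverts : (build L M).verts =
      (({hs L, ht L} ∪ X.image (fun p => pos L p.1 p.2) : Finset (Vtx L)) : Set (Vtx L)) := by
    ext x
    rw [mem_coe, mem_union, mem_insert, mem_singleton, mem_image]
    constructor
    · rintro (h | h | ⟨j, i, h1, h2, h3, h4⟩)
      · exact Or.inl (Or.inl h)
      · exact Or.inl (Or.inr h)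
      · right
        refine ⟨⟨j, i⟩, ?_, h3.symm⟩
        rw [hX, mem_sigma, mem_sdiff, mem_Icc, mem_Ioo]
        rw [hab j, mem_Ico, mem_Ico] at h4
        refine ⟨mem_univ _, ⟨h1, h2⟩, ?_⟩
        simp only
        omega
    · rintro ((h | h) | ⟨⟨j, i⟩, h, h3⟩)
      · exact Or.inl h
      · exact Or.inr (Or.inl h)
      · right; right
        rw [hX, mem_sigma, mem_sdiff, mem_Icc, mem_Ioo] at h
        simp only at h h3
        refine ⟨j, i, h.2.1.1, h.2.1.2, h3.symm, ?_⟩
        rw [hab j, mem_Ico, mem_Ico]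
        omega
  rw [hverts, Set.ncard_coe_finset, card_union_of_disjoint, card_pair hs_ne_ht, card_image_of_injOn,
    hX, card_sigma]
  · congr 1
    apply sum_congr rfl
    intro j _
    have h1 : Ioo (a j) (b j) ⊆ Icc 1 (L j) := by
      intro i hi
      rw [mem_Ioo] at hi
      rw [mem_Icc]
      have := hle j
      omega
    rw [card_sdiff_of_subset h1, Nat.card_Icc, Nat.card_Ioo, hab j, Nat.card_Ico]
    omega
  · rintro ⟨j, i⟩ h ⟨j', i'⟩ h' he
    rw [mem_coe, hX, mem_sigma, mem_sdiff, mem_Icc] at h h'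
    simp only at h h' he
    obtain ⟨h1, h2⟩ := pos_inj h.2.1.1 h.2.1.2 (by have := h'.2.1.2; omega) he
    subst h1; subst h2
    rfl
  · rw [Finset.disjoint_left]
    intro x hx hx'
    rw [mem_image] at hx'
    obtain ⟨⟨j, i⟩, h, h3⟩ := hx'
    rw [hX, mem_sigma, mem_sdiff, mem_Icc] at h
    simp only at h h3
    rw [mem_insert, mem_singleton] at hx
    rcases hx with hx | hx
    · exact pos_ne_hub h.2.1.1 h.2.1.2 _ (h3.trans hx)
    · exact pos_ne_hub h.2.1.1 h.2.1.2 _ (h3.trans hx)

omit [Fintype ι] [DecidableEq ι] in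
lemma sconn_of_tree {T : (theta L).Subgraph} (h : T.coe.IsTree) :
    SConn T ∧ T.spanningCoe.IsAcyclic := by
  rw [tree_iff] at h
  exact ⟨h.2.1, h.2.2⟩

open scoped Classical in
/-- Sums over the subtrees containing both hubs. -/
lemma sum_both (hL : ∀ j, 1 ≤ L j) (F : (theta L).Subgraph → ℝ) :
    ∑ T ∈ (trees (theta L)).filter (fun T => hs L ∈ T.verts ∧ ht L ∈ T.verts), F T =
      ∑ j0, ∑ M ∈ SS L j0, F (build L M) := by
  rw [← sum_biUnion]
  · refine sum_nbij' code (build L) ?_ ?_ ?_ ?_ ?_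
    · intro T hT
      rw [mem_filter, mem_trees] at hT
      obtain ⟨h1, h2⟩ := sconn_of_tree hT.1
      rw [mem_biUnion]
      obtain ⟨j0, hj0⟩ := code_mem_SS hL h1 h2 hT.2.1 hT.2.2
      exact ⟨j0, mem_univ _, hj0⟩
    · intro M hM
      rw [mem_biUnion] at hM
      obtain ⟨j0, -, hj0⟩ := hM
      rw [mem_filter, mem_trees]
      exact ⟨build_isTree hL hj0, Or.inl rfl, Or.inr (Or.inl rfl)⟩
    · intro T hT
      rw [mem_filter, mem_trees] at hT
      exact build_code (sconn_of_tree hT.1).1 hT.2.1 hT.2.2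
    · intro M hM
      rw [mem_biUnion] at hM
      obtain ⟨j0, -, hj0⟩ := hM
      exact code_build hL (SS_le hj0)
    · intro T hT
      rw [mem_filter, mem_trees] at hT
      rw [build_code (sconn_of_tree hT.1).1 hT.2.1 hT.2.2]
  · intro j _ j' _ hne
    simp only [Function.onFun]
    rw [Finset.disjoint_left]
    intro M h1 h2
    rw [mem_SS] at h1 h2
    have := h2.2 j hne
    rw [h1.1] at this
    exact empty_notMem_II _ this

omit [Fintype ι] [DecidableEq ι] in
/-- Two subtrees containing the same hubs, at least one, with the same code, are equal. -/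
lemma code_inj {T T' : (theta L).Subgraph} (hT : SConn T) (hT' : SConn T') {b : Bool}
    (hb : Sum.inl b ∈ T.verts) (hb' : Sum.inl b ∈ T'.verts) 
    (hn : (Sum.inl (!b) : Vtx L) ∉ T.verts) (hn' : (Sum.inl (!b) : Vtx L) ∉ T'.verts)
    (he : code T = code T') : T = T' := by
  have key : ∀ {T T' : (theta L).Subgraph}, SConn T → SConn T' → Sum.inl b ∈ T.verts →
      Sum.inl b ∈ T'.verts → (Sum.inl (!b) : Vtx L) ∉ T.verts → code T = code T' →
      T.verts ⊆ T'.verts := by
    intro T T' hT hT' hb hb' hn he x hx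
    have hub : ∀ c : Bool, Sum.inl c ∈ T.verts → Sum.inl c ∈ T'.verts := by
      intro c hc
      by_cases hcb : c = b
      · rw [hcb]; exact hb'
      · have : c = !b := by cases c <;> cases b <;> simp_all
        rw [this] at hc
        exact absurd hc hn
    rcases hub_cases x with h | h | ⟨j, i, h2, h3, h4⟩
    · rw [h] at hx ⊢; exact hub _ hx
    · rw [h] at hx ⊢; exact hub _ hx
    · rw [h4] at hx ⊢
      rw [mem_iff hT hb h2 h3, pr_iff (by omega), pr_iff h3, he, ← pr_iff (by omega),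
        ← pr_iff h3] at hx
      rw [mem_iff hT' hb' h2 h3]
      exact hx
  apply Subgraph.ext
  · exact Set.Subset.antisymm (key hT hT' hb hb' hn he) (key hT' hT hb' hb hn' he.symm)
  · ext x y
    constructor
    · intro h
      obtain ⟨j, i, h2, h3, h4⟩ := exists_pr h
      exact adj_of_pr h3 ((pr_iff h2).2 (he ▸ (pr_iff h2).1 h4))
    · intro h
      obtain ⟨j, i, h2, h3, h4⟩ := exists_pr h
      exact adj_of_pr h3 ((pr_iff h2).2 (he.symm ▸ (pr_iff h2).1 h4))

open scoped Classical in
/-- the number of subtrees containing exactly one hub -/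
lemma card_one (b : Bool) :
    ((trees (theta L)).filter (fun T => Sum.inl b ∈ T.verts ∧ (Sum.inl (!b) : Vtx L) ∉ T.verts)).card
      ≤ ∏ j, (L j + 1) := by
  have hcard : ∀ j, ((range (L j + 1)).image (fun a =>
      if b then Ico 0 (a + 1) else Ico a (L j + 1))).card ≤ L j + 1 := by
    intro j
    exact card_image_le.trans (by rw [card_range])
  refine le_trans ?_ (Finset.prod_le_prod (fun j _ => Nat.zero_le _) (fun j _ => hcard j))
  rw [← Fintype.card_piFinset]
  apply card_le_card_of_injOn code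
  · intro T hT
    rw [mem_coe, mem_filter, mem_trees] at hT
    obtain ⟨hT, hb, hn⟩ := hT
    obtain ⟨hc, -⟩ := sconn_of_tree hT
    rw [mem_coe, Fintype.mem_piFinset]
    intro j
    -- the edge at the missing hub is missing
    have hmiss : (if b then 0 else L j) ∈ code T j := by
      rw [mem_code]
      cases b with
      | true =>
        refine ⟨Nat.zero_le _, fun hp => hn ?_⟩
        have := T.edge_vert (show T.Adj _ _ from hp)
        simpa [pos_zero] using this
      | false =>
        refine ⟨le_rfl, fun hp => hn ?_⟩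
        have := T.edge_vert (show T.Adj _ _ from hp).symm
        simp only [Bool.false_eq_true, if_false] at this
        rwa [pos_last] at this
    obtain ⟨a, c, h1, h2, h3⟩ := mem_II.1 (code_mem hc hb ⟨_, hmiss⟩)
    rw [h3, mem_Ico] at hmiss
    rw [mem_image]
    cases b with
    | true =>
      refine ⟨c - 1, by rw [mem_range]; omega, ?_⟩
      simp only [if_true] at hmiss ⊢
      rw [h3]
      congr 1 <;> omega
    | false =>
      refine ⟨a, by rw [mem_range]; omega, ?_⟩
      simp only [Bool.false_eq_true, if_false] at hmiss ⊢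
      rw [h3]
      congr 1; omega
  · intro T hT T' hT' he
    rw [mem_coe, mem_filter, mem_trees] at hT hT'
    exact code_inj (sconn_of_tree hT.1).1 (sconn_of_tree hT'.1).1 hT.2.1 hT'.2.1
      hT.2.2 hT'.2.2 he

omit [Fintype ι] [DecidableEq ι] in
/-- a subtree containing no hub lies in one path -/
lemma in_path {T : (theta L).Subgraph} (hT : SConn T) (h0 : hs L ∉ T.verts) (h1 : ht L ∉ T.verts)
    {j : ι} {i : ℕ} (hi1 : 1 ≤ i) (hi2 : i ≤ L j) (hi : pos L j i ∈ T.verts) :
    ∀ x ∈ T.verts, ∃ i', 1 ≤ i' ∧ i' ≤ L j ∧ x = pos L j i' := by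
  intro x hx
  by_contra hcon
  obtain ⟨y, z, hy, hz, hyz⟩ := exists_boundary {x | ∃ i', 1 ≤ i' ∧ i' ≤ L j ∧ x = pos L j i'}
    (hT _ hi _ hx) ⟨i, hi1, hi2, rfl⟩ hcon
  obtain ⟨m, h4, h5, h6⟩ := hy
  obtain ⟨j', i', h7, h8, h9⟩ := exists_pr (show T.Adj y z from hyz)
  have hzv : z ∈ T.verts := T.edge_vert (show T.Adj y z from hyz).symm
  have hne : ∀ n, n ≤ L j + 1 → pos L j n ∈ T.verts → 1 ≤ n ∧ n ≤ L j := by
    intro n hn hmem
    constructor
    · by_contra h
      have : n = 0 := by omega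
      rw [this, pos_zero] at hmem
      exact h0 hmem
    · by_contra h
      have : n = L j + 1 := by omega
      rw [this, pos_last] at hmem
      exact h1 hmem
  rcases h8 with ⟨h10, h11⟩ | ⟨h10, h11⟩
  · obtain ⟨h12, h13⟩ := pos_inj (by omega) (by omega) (by omega) (h6.symm.trans h10)
    subst h12; subst h13
    rw [h11] at hzv
    have := hne (m + 1) (by omega) hzv
    exact hz ⟨m + 1, this.1, this.2, h11⟩
  · obtain ⟨h12, h13⟩ := pos_inj (by omega) (by omega) (by omega) (h6.symm.trans h10)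
    subst h12
    rw [h11] at hzv
    have := hne i' (by omega) hzv
    exact hz ⟨i', this.1, this.2, h11⟩

open scoped Classical in
/-- the number of subtrees containing no hub -/
lemma card_none [Nonempty ι] :
    ((trees (theta L)).filter (fun T => hs L ∉ T.verts ∧ ht L ∉ T.verts)).card
      ≤ ∑ j, 4 ^ (L j + 1) := by
  have hcard : ∀ j, ((range (L j + 1)).powerset ×ˢ (range (L j + 1)).powerset).card =
      4 ^ (L j + 1) := by
    intro j
    rw [card_product, card_powerset, card_range, ← mul_pow]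
    norm_num
  simp only [← hcard]
  rw [← card_sigma]
  -- the path containing the tree
  have hex : ∀ T : (theta L).Subgraph, T.coe.IsTree → hs L ∉ T.verts → ht L ∉ T.verts →
      ∃ j, ∀ x ∈ T.verts, ∃ i', 1 ≤ i' ∧ i' ≤ L j ∧ x = pos L j i' := by
    intro T hT h0 h1
    obtain ⟨⟨x, hx⟩, h2, -⟩ := tree_iff T |>.1 hT
    rcases hub_cases x with h | h | ⟨j, i, h3, h4, h5⟩
    · rw [h] at hx; exact absurd hx h0
    · rw [h] at hx; exact absurd hx h1
    · rw [h5] at hx
      exact ⟨j, in_path h2 h0 h1 h3 h4 hx⟩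
  have hex' : ∀ T : (theta L).Subgraph, ∃ j, T.coe.IsTree → hs L ∉ T.verts → ht L ∉ T.verts →
      ∀ x ∈ T.verts, ∃ i', 1 ≤ i' ∧ i' ≤ L j ∧ x = pos L j i' := by
    intro T
    by_cases h : T.coe.IsTree ∧ hs L ∉ T.verts ∧ ht L ∉ T.verts
    · obtain ⟨j, hj⟩ := hex T h.1 h.2.1 h.2.2
      exact ⟨j, fun _ _ _ => hj⟩
    · obtain ⟨j⟩ := ‹Nonempty ι›
      exact ⟨j, fun h1 h2 h3 => absurd ⟨h1, h2, h3⟩ h⟩
  choose p hp using hex'
  apply card_le_card_of_injOn (fun T => (⟨p T,
    ((range (L (p T) + 1)).filter (fun i => pos L (p T) i ∈ T.verts), code T (p T))⟩ :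
      Σ _ : ι, Finset ℕ × Finset ℕ))
  · intro T hT
    rw [mem_coe, mem_sigma, mem_product, mem_powerset, mem_powerset]
    exact ⟨mem_univ _, filter_subset _ _, filter_subset _ _⟩
  · intro T hT T' hT' he
    rw [mem_coe, mem_filter, mem_trees] at hT hT'
    obtain ⟨hT1, h0, h1⟩ := hT
    obtain ⟨hT1', h0', h1'⟩ := hT'
    have q := hp T hT1 h0 h1
    have q' := hp T' hT1' h0' h1'
    simp only [Sigma.mk.injEq] at he
    obtain ⟨e1, e2⟩ := he
    rw [← e1] at q' e2
    have e3 := eq_of_heq e2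
    rw [Prod.mk.injEq] at e3
    obtain ⟨e4, e5⟩ := e3
    set j := p T
    have hmem : ∀ i, i ≤ L j → (pos L j i ∈ T.verts ↔ pos L j i ∈ T'.verts) := by
      intro i hi
      have h2 : i ∈ (range (L j + 1)).filter (fun i => pos L j i ∈ T.verts) ↔
          i ∈ (range (L j + 1)).filter (fun i => pos L j i ∈ T'.verts) := by rw [e4]
      rw [mem_filter, mem_filter, mem_range] at h2
      constructor
      · intro h; exact (h2.1 ⟨by omega, h⟩).2
      · intro h; exact (h2.2 ⟨by omega, h⟩).2
    have hpr : ∀ i, i ≤ L j → (Pr T j i ↔ Pr T' j i) := by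
      intro i hi
      rw [pr_iff hi, pr_iff hi, e5]
    have hadj : ∀ {T T' : (theta L).Subgraph},
        (∀ x ∈ T.verts, ∃ i', 1 ≤ i' ∧ i' ≤ L j ∧ x = pos L j i') →
        (∀ i, i ≤ L j → (Pr T j i ↔ Pr T' j i)) → ∀ x y, T.Adj x y → T'.Adj x y := by
      intro T T' q hpr x y h
      obtain ⟨j', i, h2, h3, h4⟩ := exists_pr h
      obtain ⟨m, h5, h6, h7⟩ := q _ (T.edge_vert (show T.Adj _ _ from h4))
      obtain ⟨e1, e2⟩ := pos_inj h5 h6 (by omega) h7.symm
      subst e1
      exact adj_of_pr h3 ((hpr i h2).1 h4)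
    apply Subgraph.ext
    · ext x
      constructor
      · intro hx
        obtain ⟨i, h2, h3, h4⟩ := q x hx
        rw [h4] at hx ⊢
        exact (hmem i h3).1 hx
      · intro hx
        obtain ⟨i, h2, h3, h4⟩ := q' x hx
        rw [h4] at hx ⊢
        exact (hmem i h3).2 hx
    · ext x y
      exact ⟨hadj q hpr x y, hadj q' (fun i hi => (hpr i hi).symm) x y⟩

end Pool.Agent.X57.Theta
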