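import Mathlib
import Pool.Agent.X57.Theta3

/-!
# Subtrees of generalised theta graphs: the classes of trees containing both hubs (helper57)
-/

namespace Pool.Agent.X57.Theta

open SimpleGraph Finset

/-- sums over products -/
lemma sum_pi_single {κ α : Type} [Fintype κ] [DecidableEq κ] (t : κ → Finset α)
    (ht : ∀ j, ((t j).card : ℝ) ≠ 0) (i : κ) (v : α → ℝ) :
    ∑ M ∈ Fintype.piFinset t, v (M i) =
      (∏ j, ((t j).card : ℝ)) * ((∑ x ∈ t i, v x) / (t i).card) := by
  classical
  have h1 := Finset.prod_univ_sum (R := ℝ) t (fun j x => if j = i then v x else 1)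
  have h2 : ∀ M : κ → α, ∏ j, (if j = i then v (M j) else 1) = v (M i) := by
    intro M
    rw [Finset.prod_ite_eq' univ i (fun j => v (M j)), if_pos (mem_univ i)]
  simp only [h2] at h1
  rw [← h1, ← mul_prod_erase univ _ (mem_univ i), ← mul_prod_erase univ
    (fun j => ((t j).card : ℝ)) (mem_univ i)]
  have h3 : ∏ x ∈ univ.erase i, ∑ y ∈ t x, (if x = i then v y else 1) =
      ∏ x ∈ univ.erase i, ((t x).card : ℝ) := by
    apply prod_congr rfl
    intro j hj
    rw [mem_erase] at hj
    simp [hj.1]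
  rw [h3]
  simp only [if_true]
  have := ht i
  field_simp

lemma sum_pi_size {κ α : Type} [Fintype κ] [DecidableEq κ] (t : κ → Finset α)
    (ht : ∀ j, ((t j).card : ℝ) ≠ 0) (v : κ → α → ℝ) (a : ℝ) :
    ∑ M ∈ Fintype.piFinset t, (a + ∑ j, v j (M j)) =
      (∏ j, ((t j).card : ℝ)) * (a + ∑ j, (∑ x ∈ t j, v j x) / (t j).card) := by
  rw [sum_add_distrib, sum_comm, sum_const, Fintype.card_piFinset, nsmul_eq_mul, mul_add, mul_sum]
  push_cast
  congr 1
  exact sum_congr rfl (fun j _ => sum_pi_single t ht j (v j))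

variable {k l : ℕ}

/-- the numbers of inner vertices: one short path and `k` paths with `l` inner vertices -/
def LL (k l : ℕ) : Option (Fin k) → ℕ
  | none => 1
  | some _ => l

lemma one_le_LL (hl : 1 ≤ l) : ∀ j, 1 ≤ LL k l j := by
  rintro (_ | _)
  · exact le_rfl
  · exact hl

/-- the special vertex -/
def uu (k l : ℕ) : Vtx (LL k l) := pos (LL k l) none 1

lemma mem_II_2 {M : Finset ℕ} : M ∈ II 2 ↔ M = {0} ∨ M = {1} ∨ M = {0, 1} := by
  rw [mem_II]
  constructor
  · rintro ⟨a, b, h1, h2, h3⟩
    have : (a = 0 ∧ b = 1) ∨ (a = 1 ∧ b = 2) ∨ (a = 0 ∧ b = 2) := by omega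
    rcases this with ⟨rfl, rfl⟩ | ⟨rfl, rfl⟩ | ⟨rfl, rfl⟩
    · left; rw [h3]; rfl
    · right; left; rw [h3]; rfl
    · right; right; rw [h3]; rfl
  · rintro (h | h | h)
    · exact ⟨0, 1, by omega, by omega, by rw [h]; rfl⟩
    · exact ⟨1, 2, by omega, by omega, by rw [h]; rfl⟩
    · exact ⟨0, 2, by omega, by omega, by rw [h]; rfl⟩

lemma II_2 : II 2 = {{0}, {1}, {0, 1}} := by
  ext M
  rw [mem_II_2]
  simp only [mem_insert, mem_singleton]

lemma uu_mem {M : Option (Fin k) → Finset ℕ} :
    uu k l ∈ (build (LL k l) M).verts ↔ (0 ∉ M none ∨ 1 ∉ M none) := by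
  have hu : ∀ b, uu k l ≠ Sum.inl b := pos_ne_hub (L := LL k l) (j := none) (i := 1) le_rfl le_rfl
  constructor
  · rintro (h | h | ⟨j, i, h1, h2, h3, h4⟩)
    · exact absurd h (hu _)
    · exact absurd h (hu _)
    · obtain ⟨h5, h6⟩ := pos_inj (L := LL k l) (j := none) (i := 1) le_rfl le_rfl (by omega) h3
      subst h5; subst h6
      exact h4
  · intro h
    exact Or.inr (Or.inr ⟨none, 1, le_rfl, le_rfl, rfl, h⟩)

/-- the class of the trees for which the short path is full -/
lemma class_A : SS (LL k l) none = Fintype.piFinset (fun j => match j with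
    | none => {∅}
    | some _ => II (l + 1)) := by
  unfold SS
  congr 1
  funext j
  cases j with
  | none => rfl
  | some i => rfl

/-- the class for which the long path number `i` is full, with the state `x` of the short path -/
def CB (k l : ℕ) (i : Fin k) (x : Finset ℕ) : Finset (Option (Fin k) → Finset ℕ) :=
  Fintype.piFinset (fun j => match j with
    | none => {x}
    | some i' => if i' = i then {∅} else II (l + 1))

lemma mem_CB {i : Fin k} {x : Finset ℕ} {M : Option (Fin k) → Finset ℕ} :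
    M ∈ CB k l i x ↔ M none = x ∧ M (some i) = ∅ ∧ ∀ i', i' ≠ i → M (some i') ∈ II (l + 1) := by
  rw [CB, Fintype.mem_piFinset]
  constructor
  · intro h
    have h3 := h none
    have h4 := h (some i)
    simp only [mem_singleton, if_true] at h3 h4
    refine ⟨h3, h4, fun i' hi => ?_⟩
    have := h (some i')
    simp only [if_neg hi] at this
    exact this
  · rintro ⟨h1, h2, h3⟩ j
    cases j with
    | none => exact mem_singleton.2 h1
    | some i' =>
      by_cases hi : i' = i
      · simp only [hi, if_true, mem_singleton]; exact h2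
      · simp only [if_neg hi]; exact h3 i' hi

lemma CB_eq {i : Fin k} {x : Finset ℕ} (hx : x ∈ II 2) :
    (SS (LL k l) (some i)).filter (fun M => M none = x) = CB k l i x := by
  ext M
  rw [mem_filter, mem_SS, mem_CB]
  constructor
  · rintro ⟨⟨h3, h4⟩, h5⟩
    refine ⟨h5, h3, fun i' hi => ?_⟩
    exact h4 (some i') (by simpa using hi)
  · rintro ⟨h1, h2, h3⟩
    refine ⟨⟨h2, fun j hj => ?_⟩, h1⟩
    cases j with
    | none => rw [h1]; exact hx
    | some i' => exact h3 i' (fun h => hj (by rw [h]))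

lemma class_B (i : Fin k) (F : (Option (Fin k) → Finset ℕ) → ℝ) :
    ∑ M ∈ SS (LL k l) (some i), F M =
      ∑ M ∈ CB k l i {0}, F M + ∑ M ∈ CB k l i {1}, F M + ∑ M ∈ CB k l i {0, 1}, F M := by
  have h1 : ∀ M ∈ SS (LL k l) (some i), M none ∈ II 2 := by
    intro M hM
    rw [mem_SS] at hM
    exact hM.2 none (by simp)
  rw [← sum_fiberwise_of_maps_to h1, sum_congr rfl (fun x hx => by rw [CB_eq hx]), II_2, sum_insert,
    sum_insert, sum_singleton]
  · ring
  · rw [mem_singleton]; decide
  · simp only [mem_insert, mem_singleton]; decide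

/-- the size of the tree -/
def sz (k l : ℕ) (M : Option (Fin k) → Finset ℕ) : ℝ :=
  2 + ∑ j, ((LL k l j - ((M j).card - 1) : ℕ) : ℝ)

lemma card_build' {j0 : Option (Fin k)} {M : Option (Fin k) → Finset ℕ}
    (hM : M ∈ SS (LL k l) j0) : ((build (LL k l) M).verts.ncard : ℝ) = sz k l M := by
  rw [card_build hM]
  unfold sz
  push_cast
  rfl

/-- the number of states of a long path that is not full -/
noncomputable def cc (l : ℕ) : ℝ := ((II (l + 1)).card : ℝ)

/-- their average size -/
noncomputable def mm (l : ℕ) : ℝ :=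
  (∑ M ∈ II (l + 1), ((l - (M.card - 1) : ℕ) : ℝ)) / ((II (l + 1)).card : ℝ)

lemma cc_ne (l : ℕ) : cc l ≠ 0 := by
  unfold cc
  have : 0 < (II (l + 1)).card := by
    rw [card_pos]
    exact ⟨Ico 0 1, mem_II.2 ⟨0, 1, by omega, by omega, rfl⟩⟩
  exact_mod_cast this.ne'

lemma card_A : ((SS (LL k l) none).card : ℝ) = cc l ^ k := by
  rw [class_A, Fintype.card_piFinset, Fintype.prod_option]
  simp only [card_singleton, one_mul, prod_const, card_univ, Fintype.card_fin]
  push_cast
  rfl

lemma size_A : ∑ M ∈ SS (LL k l) none, sz k l M = cc l ^ k * (3 + k * mm l) := by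
  rw [class_A]
  unfold sz
  rw [sum_pi_size _ _ (fun j (x : Finset ℕ) => ((LL k l j - (x.card - 1) : ℕ) : ℝ)) 2]
  · rw [Fintype.prod_option, Fintype.sum_option]
    simp only [card_singleton, sum_singleton, LL, prod_const, sum_const, card_univ,
      Fintype.card_fin]
    rw [← mm, ← cc]
    simp only [card_empty, nsmul_eq_mul]
    norm_num
    left; ring
  · intro j
    cases j with
    | none => simp
    | some i => exact cc_ne l

lemma prod_aux (i : Fin k) : ∏ i' : Fin k,
    (((if i' = i then {∅} else II (l + 1) : Finset (Finset ℕ))).card : ℝ) = cc l ^ (k - 1) := by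
  rw [← mul_prod_erase univ _ (mem_univ i)]
  have : ∀ i' ∈ univ.erase i,
      (((if i' = i then {∅} else II (l + 1) : Finset (Finset ℕ))).card : ℝ) = cc l := by
    intro i' hi'
    rw [mem_erase] at hi'
    rw [if_neg hi'.1]
    rfl
  rw [prod_congr rfl this, prod_const, card_erase_of_mem (mem_univ i), card_univ,
    Fintype.card_fin, if_pos rfl, card_singleton, Nat.cast_one, one_mul]

lemma sum_aux (i : Fin k) : ∑ i' : Fin k,
    (∑ x ∈ (if i' = i then {∅} else II (l + 1) : Finset (Finset ℕ)),
      ((l - (x.card - 1) : ℕ) : ℝ)) /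
        (((if i' = i then {∅} else II (l + 1) : Finset (Finset ℕ))).card : ℝ) =
      l + ((k - 1 : ℕ) : ℝ) * mm l := by
  rw [← add_sum_erase univ _ (mem_univ i)]
  have : ∀ i' ∈ univ.erase i,
      (∑ x ∈ (if i' = i then {∅} else II (l + 1) : Finset (Finset ℕ)),
      ((l - (x.card - 1) : ℕ) : ℝ)) /
        (((if i' = i then {∅} else II (l + 1) : Finset (Finset ℕ))).card : ℝ) = mm l := by
    intro i' hi'
    rw [mem_erase] at hi'
    rw [if_neg hi'.1]
    rfl
  rw [sum_congr rfl this, sum_const, card_erase_of_mem (mem_univ i), card_univ,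
    Fintype.card_fin, if_pos rfl, card_singleton, sum_singleton, card_empty, nsmul_eq_mul]
  simp

lemma card_CB (i : Fin k) (x : Finset ℕ) : ((CB k l i x).card : ℝ) = cc l ^ (k - 1) := by
  rw [CB, Fintype.card_piFinset, Fintype.prod_option]
  push_cast
  rw [card_singleton, prod_aux]
  norm_num

lemma size_CB (i : Fin k) (x : Finset ℕ) : ∑ M ∈ CB k l i x, sz k l M =
    cc l ^ (k - 1) * (2 + ((1 - (x.card - 1) : ℕ) : ℝ) + (l + ((k - 1 : ℕ) : ℝ) * mm l)) := by
  rw [CB]
  unfold sz
  rw [sum_pi_size _ _ (fun j (x : Finset ℕ) => ((LL k l j - (x.card - 1) : ℕ) : ℝ)) 2]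
  · rw [Fintype.prod_option, Fintype.sum_option]
    simp only [LL]
    rw [prod_aux, sum_aux]
    simp only [card_singleton, sum_singleton]
    push_cast
    ring
  · intro j
    cases j with
    | none => simp
    | some i' =>
      simp only
      split_ifs
      · simp
      · exact cc_ne l

end Pool.Agent.X57.Theta
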