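import Mathlib
import Pool.Agent.X57.Theta4

/-!
# Subtrees of generalised theta graphs: the inequality (helper57)
-/

namespace Pool.Agent.X57.Theta

open SimpleGraph Finset

variable {k l : ℕ}

open scoped Classical in
/-- the trees containing both hubs -/
noncomputable def bothT (k l : ℕ) : Finset (theta (LL k l)).Subgraph :=
  (trees (theta (LL k l))).filter (fun T => hs (LL k l) ∈ T.verts ∧ ht (LL k l) ∈ T.verts)

open scoped Classical in
/-- the other trees -/
noncomputable def restT (k l : ℕ) : Finset (theta (LL k l)).Subgraph :=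
  (trees (theta (LL k l))).filter (fun T => ¬ (hs (LL k l) ∈ T.verts ∧ ht (LL k l) ∈ T.verts))

lemma sum_split (F : (theta (LL k l)).Subgraph → ℝ) :
    ∑ T ∈ trees (theta (LL k l)), F T = ∑ T ∈ bothT k l, F T + ∑ T ∈ restT k l, F T := by
  classical
  unfold bothT restT
  rw [sum_filter_add_sum_filter_not]

lemma card_rest : ((restT k l).card : ℝ) ≤ 4 * (l + 1) ^ k + (16 + k * 4 ^ (l + 1)) := by
  classical
  have h1 := card_one (L := LL k l) false
  have h2 := card_one (L := LL k l) true
  have h3 := card_none (L := LL k l)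
  have hsub : restT k l ⊆
      (((trees (theta (LL k l))).filter
        (fun T => Sum.inl false ∈ T.verts ∧ (Sum.inl (!false) : Vtx (LL k l)) ∉ T.verts)) ∪
      ((trees (theta (LL k l))).filter
        (fun T => Sum.inl true ∈ T.verts ∧ (Sum.inl (!true) : Vtx (LL k l)) ∉ T.verts))) ∪
      ((trees (theta (LL k l))).filter (fun T => hs (LL k l) ∉ T.verts ∧ ht (LL k l) ∉ T.verts)) := by
    intro T hT
    rw [restT, mem_filter] at hT
    obtain ⟨h4, h5⟩ := hT
    rw [mem_union, mem_union, mem_filter, mem_filter, mem_filter]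
    simp only [Bool.not_false, Bool.not_true]
    by_cases h6 : hs (LL k l) ∈ T.verts <;> by_cases h7 : ht (LL k l) ∈ T.verts
    · exact absurd ⟨h6, h7⟩ h5
    · exact Or.inl (Or.inl ⟨h4, h6, h7⟩)
    · exact Or.inl (Or.inr ⟨h4, h7, h6⟩)
    · exact Or.inr ⟨h4, h6, h7⟩
  have h4 := (card_le_card hsub).trans ((card_union_le _ _).trans
    (Nat.add_le_add_right (card_union_le _ _) _))
  have h5 : (restT k l).card ≤ ∏ j, (LL k l j + 1) + ∏ j, (LL k l j + 1) +
      ∑ j, 4 ^ (LL k l j + 1) := h4.trans (by omega)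
  rw [Fintype.prod_option, Fintype.sum_option] at h5
  simp only [LL, prod_const, sum_const, card_univ, Fintype.card_fin, smul_eq_mul] at h5
  have h6 : ((restT k l).card : ℝ) ≤ ((1 + 1) * (l + 1) ^ k + (1 + 1) * (l + 1) ^ k +
    (4 ^ (1 + 1) + k * 4 ^ (l + 1)) : ℕ) := by exact_mod_cast h5
  push_cast at h6
  linarith

/-- the sizes of the subtrees -/
lemma ncard_le (T : (theta (LL k l)).Subgraph) : (T.verts.ncard : ℝ) ≤ 3 + k * l := by
  have h1 : T.verts.ncard ≤ Nat.card (Vtx (LL k l)) := by
    rw [← Set.ncard_univ]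
    exact Set.ncard_le_ncard (Set.subset_univ _)
  have h2 : Nat.card (Vtx (LL k l)) = 3 + k * l := by
    rw [Nat.card_eq_fintype_card, Fintype.card_sum, Fintype.card_sigma]
    simp only [Fintype.card_fin]
    rw [Fintype.sum_option]
    simp only [LL, Fintype.card_bool, Fintype.card_fin, sum_const, card_univ, smul_eq_mul]
    ring
  rw [h2] at h1
  exact_mod_cast h1

open scoped Classical in
/-- the sums over the trees containing both hubs, split by classes -/
lemma sum_both' (hl : 1 ≤ l) (F : ℝ → ℝ) (p q : ℝ) :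
    ∑ T ∈ bothT k l, (if uu k l ∈ T.verts then p else q) * F (T.verts.ncard : ℝ) =
      p * ∑ M ∈ SS (LL k l) none, F (sz k l M) + ∑ i : Fin k,
        (p * ∑ M ∈ CB k l i {0}, F (sz k l M) + p * ∑ M ∈ CB k l i {1}, F (sz k l M) +
          q * ∑ M ∈ CB k l i {0, 1}, F (sz k l M)) := by
  have h := sum_both (L := LL k l) (one_le_LL hl)
    (fun T => (if uu k l ∈ T.verts then p else q) * F (T.verts.ncard : ℝ))
  unfold bothT
  rw [h, Fintype.sum_option]
  refine congrArg₂ (· + ·) ?_ ?_
  · rw [mul_sum]
    apply sum_congr rfl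
    intro M hM
    have h1 : uu k l ∈ (build (LL k l) M).verts := by
      rw [uu_mem, (mem_SS.1 hM).1]
      left; exact notMem_empty _
    rw [if_pos h1, card_build' hM]
  · apply sum_congr rfl
    intro i _
    rw [class_B i]
    have hsub : ∀ x ∈ II 2, ∀ M ∈ CB k l i x, M ∈ SS (LL k l) (some i) ∧ M none = x := by
      intro x hx M hM
      rw [← CB_eq hx, mem_filter] at hM
      exact hM
    refine congrArg₂ (· + ·) (congrArg₂ (· + ·) ?_ ?_) ?_
    · · rw [mul_sum]
        apply sum_congr rfl
        intro M hM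
        obtain ⟨h1, h2⟩ := hsub {0} (mem_II_2.2 (Or.inl rfl)) M hM
        have h3 : uu k l ∈ (build (LL k l) M).verts := by
          rw [uu_mem, h2]; right; decide
        rw [if_pos h3, card_build' h1]
    · · rw [mul_sum]
        apply sum_congr rfl
        intro M hM
        obtain ⟨h1, h2⟩ := hsub {1} (mem_II_2.2 (Or.inr (Or.inl rfl))) M hM
        have h3 : uu k l ∈ (build (LL k l) M).verts := by
          rw [uu_mem, h2]; left; decide
        rw [if_pos h3, card_build' h1]
    · rw [mul_sum]
      apply sum_congr rfl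
      intro M hM
      obtain ⟨h1, h2⟩ := hsub {0, 1} (mem_II_2.2 (Or.inr (Or.inr rfl))) M hM
      have h3 : uu k l ∉ (build (LL k l) M).verts := by
        rw [uu_mem, h2]; decide
      rw [if_neg h3, card_build' h1]

open scoped Classical in
/-- the number of subtrees with, respectively without, the vertex `u` (weights `p`, `q`) -/
lemma both_count (hl : 1 ≤ l) (p q : ℝ) :
    ∑ T ∈ bothT k l, (if uu k l ∈ T.verts then p else q) =
      p * cc l ^ k + k * ((2 * p + q) * cc l ^ (k - 1)) := by
  have h := sum_both' (k := k) hl (fun _ => 1) p q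
  simp only [mul_one, sum_const, nsmul_eq_mul, card_A, card_CB, card_univ, Fintype.card_fin] at h
  rw [h]
  ring

open scoped Classical in
lemma both_size (hl : 1 ≤ l) (p q : ℝ) :
    ∑ T ∈ bothT k l, (if uu k l ∈ T.verts then p else q) * (T.verts.ncard : ℝ) =
      p * (cc l ^ k * (3 + k * mm l)) + k * (2 * p * (cc l ^ (k - 1) *
        (3 + (l + ((k - 1 : ℕ) : ℝ) * mm l))) +
        q * (cc l ^ (k - 1) * (2 + (l + ((k - 1 : ℕ) : ℝ) * mm l)))) := by
  have h := sum_both' (k := k) hl (fun x => x) p q
  simp only [size_A, size_CB, sum_const, nsmul_eq_mul, card_univ, Fintype.card_fin] at h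
  rw [h]
  have e1 : ({0} : Finset ℕ).card = 1 := by decide
  have e2 : ({1} : Finset ℕ).card = 1 := by decide
  have e3 : ({0, 1} : Finset ℕ).card = 2 := by decide
  rw [e1, e2, e3]
  push_cast
  ring

end Pool.Agent.X57.Theta
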