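import Mathlib

/-!
# The number of subsets of a point set cut out by half-spaces (helper57)
-/

namespace Pool.Agent.X57

open Finset

variable {E : Type*} [AddCommGroup E] [Module ℝ E] [FiniteDimensional ℝ E]

/-- the family of subsets of `Fin n` cut out by half-spaces in the point configuration `p` -/
noncomputable def halfFam {n : ℕ} (p : Fin n → E) : Finset (Finset (Fin n)) := by
  classical
  exact univ.filter (fun S => ∃ (f : E →ₗ[ℝ] ℝ) (k : ℝ), ∀ i, i ∈ S ↔ f (p i) ≤ k)

omit [FiniteDimensional ℝ E] in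
lemma mem_halfFam {n : ℕ} {p : Fin n → E} {S : Finset (Fin n)} :
    S ∈ halfFam p ↔ ∃ (f : E →ₗ[ℝ] ℝ) (k : ℝ), ∀ i, i ∈ S ↔ f (p i) ≤ k := by
  classical
  unfold halfFam
  simp

lemma shatters_card {n : ℕ} (p : Fin n → E) (s : Finset (Fin n)) (hs : (halfFam p).Shatters s) :
    s.card ≤ Module.finrank ℝ E + 1 := by
  classical
  by_contra hcon
  push Not at hcon
  have hna : ¬ AffineIndependent ℝ (fun i : s => p i.1) := by
    intro h
    have := h.card_le_finrank_succ
    rw [Fintype.card_coe] at this
    have h2 : Module.finrank ℝ (vectorSpan ℝ (Set.range (fun i : s => p i.1))) ≤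
        Module.finrank ℝ E := Submodule.finrank_le _
    omega
  obtain ⟨I, x, hxI, hxI'⟩ := Convex.radon_partition hna
  -- the subset of s corresponding to I
  set t : Finset (Fin n) := (univ.filter (fun i : s => i ∈ I)).image Subtype.val with ht
  have hts : t ⊆ s := by
    intro i hi
    rw [ht, mem_image] at hi
    obtain ⟨j, _, rfl⟩ := hi
    exact j.2
  obtain ⟨u, hu, hut⟩ := hs hts
  rw [mem_halfFam] at hu
  obtain ⟨f, k, hfk⟩ := hu
  have h1 : ∀ i ∈ I, f (p i.1) ≤ k := by
    intro i hi
    rw [← hfk]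
    have : i.1 ∈ s ∩ u := by
      rw [hut, ht, mem_image]
      exact ⟨i, by simp [hi], rfl⟩
    exact (mem_inter.1 this).2
  have h2 : ∀ i ∈ Iᶜ, k < f (p i.1) := by
    intro i hi
    by_contra hle
    push Not at hle
    rw [← hfk] at hle
    have : i.1 ∈ s ∩ u := mem_inter.2 ⟨i.2, hle⟩
    rw [hut, ht, mem_image] at this
    obtain ⟨j, hj, hji⟩ := this
    have : j = i := Subtype.ext hji
    rw [mem_filter, this] at hj
    exact hi hj.2
  have h3 : f x ≤ k := by
    have hc : Convex ℝ {y : E | f y ≤ k} := convex_halfSpace_le f.isLinear k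
    have : convexHull ℝ ((fun i : s => p i.1) '' I) ⊆ {y : E | f y ≤ k} := by
      apply convexHull_min _ hc
      rintro _ ⟨i, hi, rfl⟩
      exact h1 i hi
    exact this hxI
  have h4 : k < f x := by
    have hc : Convex ℝ {y : E | k < f y} := convex_halfSpace_gt f.isLinear k
    have : convexHull ℝ ((fun i : s => p i.1) '' Iᶜ) ⊆ {y : E | k < f y} := by
      apply convexHull_min _ hc
      rintro _ ⟨i, hi, rfl⟩
      exact h2 i hi
    exact this hxI'
  linarith

/-- Polynomial bound on the number of subsets cut out by half-spaces. -/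
lemma card_halfFam {n : ℕ} (hn : 1 ≤ n) (p : Fin n → E) (D : ℕ) (hD : Module.finrank ℝ E ≤ D) :
    (halfFam p).card ≤ (D + 2) * n ^ (D + 1) := by
  classical
  have hvc : (halfFam p).vcDim ≤ D + 1 := by
    unfold vcDim
    apply Finset.sup_le
    intro s hs
    have := shatters_card p s (mem_shatterer.1 hs)
    omega
  have h1 := card_le_card_shatterer (halfFam p)
  have h2 := card_shatterer_le_sum_vcDim (𝒜 := halfFam p)
  rw [Fintype.card_fin] at h2
  calc (halfFam p).card ≤ _ := h1
    _ ≤ ∑ k ∈ Iic (halfFam p).vcDim, n.choose k := h2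
    _ ≤ ∑ k ∈ Iic (D + 1), n.choose k := by
        apply sum_le_sum_of_subset
        intro k hk
        rw [mem_Iic] at hk ⊢
        omega
    _ ≤ ∑ k ∈ Iic (D + 1), n ^ (D + 1) := by
        apply sum_le_sum
        intro k hk
        rw [mem_Iic] at hk
        exact (Nat.choose_le_pow n k).trans (Nat.pow_le_pow_right hn hk)
    _ = (D + 2) * n ^ (D + 1) := by
        rw [sum_const, Nat.card_Iic, smul_eq_mul]

end Pool.Agent.X57
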